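import Pool.Agent.T4h19.DG2

/-!
# Lines of large jump on pullbacks under `x_i ↦ x_i ^ N`
-/

set_option autoImplicit false
set_option maxHeartbeats 400000

open MvPolynomial H960VB H938TB Pool.Agent.W615 Pool.Agent.W467.FO

namespace Pool.Agent.T4h19.DG

variable {n : ℕ}

/-- the substitution `(z_0, z_1) ↦ (z_0 - t z_1, z_1)` -/
noncomputable def sh (t : ℂ) : (Fin (1 + 1) → ℂ) →ₗ[ℂ] (Fin (1 + 1) → ℂ) where
  toFun z := ![z 0 - t * z 1, z 1]
  map_add' x y := by
    funext j
    fin_cases j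
    · simp; ring
    · simp
  map_smul' a x := by
    funext j
    fin_cases j
    · simp; ring
    · simp

theorem splitsOn_shift {E : Bundle2 n} {P Q : Fin (n + 1) → ℂ} {p q : ℤ} (t : ℂ)
    (h : E.SplitsOn P Q p q) : E.SplitsOn P (Q - t • P) p q := by
  obtain ⟨g₁, g₂, h₁, h₂, h₃⟩ := h
  refine ⟨fun i => lsub (sh t) (g₁ i), fun i => lsub (sh t) (g₂ i),
    fun i => homZ_lsub _ (h₁ i), fun i => homZ_lsub _ (h₂ i), fun z hz => ?_⟩
  have hz' : sh t z ≠ 0 := by
    intro h0
    apply hz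
    have e1 : z 1 = 0 := congrFun h0 1
    have e0 : z 0 - t * z 1 = 0 := congrFun h0 0
    rw [e1, mul_zero, sub_zero] at e0
    funext j
    fin_cases j
    · exact e0
    · exact e1
  obtain ⟨h4, h5, h6⟩ := h₃ (sh t z) hz'
  have hev : ∀ g : Fin E.a → MvPolynomial (Fin 2) ℂ,
      evv (fun i => lsub (sh t) (g i)) z = evv g (sh t z) := by
    intro g
    funext i
    exact eval_lsub (sh t) z (g i)
  have hpt : (sh t z) 0 • P + (sh t z) 1 • Q = z 0 • P + z 1 • (Q - t • P) := by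
    show (z 0 - t * z 1) • P + z 1 • Q = z 0 • P + z 1 • (Q - t • P)
    module
  rw [hev, hev, ← hpt]
  exact ⟨h4, h5, h6⟩

theorem powPull_line {N : ℕ} (hN : 1 ≤ N) (a : ℤ) {E : Bundle2 n} {P P' Q Q' : Fin (n + 1) → ℂ}
    {p q : ℤ} (h : E.SplitsOn P' Q' p q)
    (hPQ : ∀ z : Fin 2 → ℂ, (fun i => (z 0 • P + z 1 • Q) i ^ N) = z 0 ^ N • P' + z 1 ^ N • Q') :
    (powPull N hN a E).SplitsOn P Q (N * p + a) (N * q + a) := by
  obtain ⟨g₁, g₂, h₁, h₂, h₃⟩ := h
  have hd : ∀ (p : ℤ) (g : Fin E.a → MvPolynomial (Fin 2) ℂ), (∀ i, HomZ (g i) (E.β i - p)) →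
      ∀ i, HomZ (expand N (g i)) ((powPull N hN a E).β i - (N * p + a)) := by
    intro p g hg i
    have h4 := homZ_expand (N := N) (hg i)
    have h5 : (powPull N hN a E).β i - (N * p + a) = N * (E.β i - p) := by
      show (N : ℤ) * E.β i + a - (N * p + a) = N * (E.β i - p)
      ring
    rw [h5]
    exact h4
  refine ⟨fun i => expand N (g₁ i), fun i => expand N (g₂ i), hd p g₁ h₁, hd q g₂ h₂,
    fun z hz => ?_⟩
  have hz' : (fun j => z j ^ N) ≠ 0 := fun h0 => hz (funext fun j =>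
    (pow_eq_zero_iff (by omega : N ≠ 0)).1 (congrFun h0 j))
  obtain ⟨h4, h5, h6⟩ := h₃ _ hz'
  have hev : ∀ g : Fin E.a → MvPolynomial (Fin 2) ℂ,
      evv (fun i => expand N (g i)) z = evv g (fun j => z j ^ N) := by
    intro g
    funext i
    exact eval_expand' N z (g i)
  have hfib : (powPull N hN a E).fib (z 0 • P + z 1 • Q) = E.fib (z 0 ^ N • P' + z 1 ^ N • Q') := by
    have h7 : evm (powPull N hN a E).B (z 0 • P + z 1 • Q) =
        evm E.B (z 0 ^ N • P' + z 1 ^ N • Q') := by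
      ext k i
      show eval (z 0 • P + z 1 • Q) (expand N (E.B k i)) =
        eval (z 0 ^ N • P' + z 1 ^ N • Q') (E.B k i)
      rw [eval_expand', ← hPQ z]
    unfold Bundle2.fib
    rw [h7]
    rfl
  have k1 : evv (fun i : Fin E.a => expand N (g₁ i)) z ∈ E.fib (z 0 ^ N • P' + z 1 ^ N • Q') := by
    rw [hev]
    exact h4
  have k2 : evv (fun i : Fin E.a => expand N (g₂ i)) z ∈ E.fib (z 0 ^ N • P' + z 1 ^ N • Q') := by
    rw [hev]
    exact h5
  have k3 : LinearIndependent ℂ ![evv (fun i : Fin E.a => expand N (g₁ i)) z,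
      evv (fun i : Fin E.a => expand N (g₂ i)) z] := by
    rw [hev, hev]
    exact h6
  exact ⟨hfib.symm ▸ k1, hfib.symm ▸ k2, k3⟩

/-- lines of large jump through the coordinate points -/
theorem exists_line (hn : 2 ≤ n) {N : ℕ} (hN : 1 ≤ N) (a : ℤ) {E : Bundle2 n} (hE : ¬ E.Splits)
    (i : Fin (n + 1)) : ∃ Q : Fin (n + 1) → ℂ,
      LinearIndependent ℂ ![(Pi.single i 1 : Fin (n + 1) → ℂ), Q] ∧
      ∃ p q : ℤ, (powPull N hN a E).SplitsOn (Pi.single i 1) Q p q ∧
        (N : ℤ) * (n - 1) ≤ |p - q| := by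
  classical
  set P : Fin (n + 1) → ℂ := Pi.single i 1 with hP
  have hP0 : P ≠ 0 := fun h => by
    have := congrFun h i
    rw [hP, Pi.single_eq_same] at this
    exact one_ne_zero this
  have hPi : P i = 1 := by rw [hP, Pi.single_eq_same]
  have hPj : ∀ j, j ≠ i → P j = 0 := fun j hj => by rw [hP, Pi.single_eq_of_ne hj]
  obtain ⟨Q', hPQ', p, q, hpq, hgap⟩ : ∃ Q', LinearIndependent ℂ ![P, Q'] ∧ ∃ p q : ℤ,
      E.SplitsOn P Q' p q ∧ (n : ℤ) - 1 ≤ |p - q| := by
    by_contra hcon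
    push Not at hcon
    refine hE (E.main_subspace ⊤ (by
      rw [finrank_top, Module.finrank_fintype_fun_eq_card, Fintype.card_fin]
      omega) P trivial hP0 fun Q _ hPQ => ?_)
    obtain ⟨p, q, hpq⟩ := Pool.Agent.H106R3.VB.splitsOn_exists E hPQ
    have h1 := hcon Q hPQ p q hpq
    refine ⟨p, q, ?_, hpq⟩
    rw [finrank_top, Module.finrank_fintype_fun_eq_card, Fintype.card_fin]
    push_cast
    omega
  have hshift := splitsOn_shift (Q' i) hpq
  set y := Q' - Q' i • P with hy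
  have hyi : y i = 0 := by
    rw [hy, Pi.sub_apply, Pi.smul_apply, hPi, smul_eq_mul, mul_one, sub_self]
  choose Q₀ hQ₀ using fun j => IsAlgClosed.exists_pow_nat_eq (y j) (by omega : 0 < N)
  refine ⟨Q₀, ?_, N * p + a, N * q + a, ?_, ?_⟩
  · have hy0 : y ≠ 0 := by
      intro h0
      rw [LinearIndependent.pair_iff] at hPQ'
      have h1 := hPQ' (-(Q' i)) 1 (by
        have : Q' - Q' i • P = 0 := h0
        rw [one_smul, neg_smul, neg_add_eq_sub]
        exact this)
      exact one_ne_zero h1.2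
    obtain ⟨j, hj⟩ : ∃ j, y j ≠ 0 := by
      by_contra hc
      push Not at hc
      exact hy0 (funext hc)
    have hji : j ≠ i := fun h => hj (by rw [h]; exact hyi)
    have hQj : Q₀ j ≠ 0 := fun h => hj (by rw [← hQ₀ j, h, zero_pow (by omega)])
    rw [LinearIndependent.pair_iff]
    intro s t hst
    have e1 := congrFun hst j
    simp only [Pi.add_apply, Pi.smul_apply, smul_eq_mul, Pi.zero_apply, hPj j hji, mul_zero,
      zero_add] at e1
    have ht : t = 0 := (mul_eq_zero.1 e1).resolve_right hQj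
    have e2 := congrFun hst i
    simp only [Pi.add_apply, Pi.smul_apply, smul_eq_mul, Pi.zero_apply, hPi, mul_one, ht,
      zero_mul, add_zero] at e2
    exact ⟨e2, ht⟩
  · refine powPull_line hN a hshift fun z => ?_
    funext j
    simp only [Pi.add_apply, Pi.smul_apply, smul_eq_mul]
    by_cases hj : j = i
    · have hQi : Q₀ i = 0 := by
        have := hQ₀ i
        rw [hyi] at this
        exact (pow_eq_zero_iff (by omega : N ≠ 0)).1 this
      rw [hj, hPi, hyi, hQi]
      ring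
    · rw [hPj j hj, mul_zero, mul_zero, zero_add, zero_add, mul_pow, hQ₀ j]
  · have h1 : (N : ℤ) * p + a - (N * q + a) = N * (p - q) := by ring
    rw [h1, abs_mul, Nat.abs_cast]
    exact mul_le_mul_of_nonneg_left hgap (by positivity)

end Pool.Agent.T4h19.DG
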