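import Pool.Agent.T4h19.DG1

/-!
# The normalising character for the group of diagonal matrices
-/

set_option autoImplicit false
set_option maxHeartbeats 400000

open MvPolynomial H960VB H938TB Pool.Agent.W615 Pool.Agent.W467.FO

namespace Pool.Agent.T4h19.DG

variable {n : ℕ} {N : ℕ} [NeZero N] {E : Bundle2 n} (A : Act E (Mu n N))
  (hρ : ∀ ζ x j, A.ρ ζ x j = ((ζ j : ℂˣ) : ℂ) * x j)

include hρ

/-- a reflection in the diagonal group changes one coordinate only -/
theorem refl_eq_single (hn : 1 ≤ n) {r : Mu n N} (hr : A.Refl r) :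
    ∃ i, r = Pi.mulSingle i (r i) := by
  classical
  by_contra hcon
  push Not at hcon
  obtain ⟨i, hi⟩ : ∃ i, r i ≠ 1 := by
    by_contra hc
    push Not at hc
    apply hcon 0
    rw [hc 0, Pi.mulSingle_one]
    exact funext hc
  obtain ⟨j, hj⟩ := Function.ne_iff.1 (hcon i)
  have hji : j ≠ i := by
    rintro rfl
    exact hj (by rw [Pi.mulSingle_eq_same])
  rw [Pi.mulSingle_eq_of_ne hji] at hj
  have hone : ∀ k, r k ≠ 1 → ((r k : ℂˣ) : ℂ) ≠ 1 := fun k hk h => hk (by
    apply Subtype.ext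
    apply Units.ext
    exact h)
  have hK : ∀ x ∈ LinearMap.ker (A.ρ r - LinearMap.id), ∀ k, r k ≠ 1 → x k = 0 := by
    intro x hx k hk
    rw [LinearMap.mem_ker, LinearMap.sub_apply, LinearMap.id_apply, sub_eq_zero] at hx
    have h1 := congrFun hx k
    rw [hρ] at h1
    have h2 : (((r k : ℂˣ) : ℂ) - 1) * x k = 0 := by rw [sub_mul, h1, one_mul, sub_self]
    exact (mul_eq_zero.1 h2).resolve_left (sub_ne_zero.2 (hone k hk))
  let L : (Fin (n + 1) → ℂ) →ₗ[ℂ] (Fin 2 → ℂ) :=
    { toFun := fun x => ![x i, x j]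
      map_add' := by
        intro x y
        funext k
        fin_cases k <;> simp
      map_smul' := by
        intro a x
        funext k
        fin_cases k <;> simp }
  have hsurj : Function.Surjective L := by
    intro v
    refine ⟨Pi.single i (v 0) + Pi.single j (v 1), ?_⟩
    funext k
    fin_cases k
    · show (Pi.single i (v 0) + Pi.single j (v 1) : Fin (n + 1) → ℂ) i = v 0
      rw [Pi.add_apply, Pi.single_eq_same, Pi.single_eq_of_ne (Ne.symm hji), add_zero]
    · show (Pi.single i (v 0) + Pi.single j (v 1) : Fin (n + 1) → ℂ) j = v 1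
      rw [Pi.add_apply, Pi.single_eq_same, Pi.single_eq_of_ne hji, zero_add]
  have h1 := LinearMap.finrank_range_add_finrank_ker L
  rw [LinearMap.range_eq_top.2 hsurj, finrank_top, Module.finrank_fintype_fun_eq_card,
    Module.finrank_fintype_fun_eq_card, Fintype.card_fin, Fintype.card_fin] at h1
  have hle : LinearMap.ker (A.ρ r - LinearMap.id) ≤ LinearMap.ker L := by
    intro x hx
    rw [LinearMap.mem_ker]
    funext k
    fin_cases k
    · exact hK x hx i hi
    · exact hK x hx j hj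
  have h2 := Submodule.finrank_mono hle
  have h3 : n ≤ Module.finrank ℂ (LinearMap.ker (A.ρ r - LinearMap.id)) := hr
  omega

/-- the coordinate subgroups act by characters -/
theorem exists_char_single (hn : 3 ≤ n) (hE : ¬ E.Splits) (i : Fin (n + 1)) :
    ∃ (θ : rootsOfUnity N ℂ →* ℂˣ) (y : Fin (n + 1) → ℂ), y ≠ 0 ∧
      ∀ z, A.ρ (Pi.mulSingle i z) y = y ∧ ∀ (d : ℤ) s, Sec E d s →
        evv ((A.O (Pi.mulSingle i z)).D s) y = (θ z : ℂ) • evv s y := by
  classical
  obtain ⟨j, hj⟩ : ∃ j : Fin (n + 1), j ≠ i := by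
    by_cases h : i = 0
    · exact ⟨Fin.last n, by
        rw [h]
        intro h1
        have := congrArg Fin.val h1
        simp at this
        omega⟩
    · exact ⟨0, Ne.symm h⟩
  set y : Fin (n + 1) → ℂ := Pi.single j 1 with hy
  have hy0 : y ≠ 0 := by
    intro h
    have := congrFun h j
    rw [hy, Pi.single_eq_same] at this
    exact one_ne_zero this
  have hfix : ∀ z, A.ρ (Pi.mulSingle i z) y = y := by
    intro z
    funext k
    rw [hρ]
    by_cases hk : k = i
    · have h1 : y k = 0 := by rw [hy, hk, Pi.single_eq_of_ne (Ne.symm hj)]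
      rw [h1, mul_zero]
    · rw [Pi.mulSingle_eq_of_ne hk]
      simp
  obtain ⟨W⟩ := exists_wedge (by omega : 1 ≤ n) (triv E)
  obtain ⟨a, b, G, G', hG, hG', hne⟩ := exists_sec_ne W y hy0
  have hli := (W.ind y hy0 G G' hG.ker hG'.ker).1 hne
  have hGne : evv G y ≠ 0 := hli.ne_zero 0
  have hu : ∀ z : rootsOfUnity N ℂ, ∃ u : ℂ, ∀ (d : ℤ) s, Sec E d s →
      evv ((A.O (Pi.mulSingle i z)).D s) y = u • evv s y := by
    intro z
    obtain ⟨u, hu⟩ := t_scal n E (Mu n N) A hn hE _ (refl_single A hρ i z)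
    exact ⟨u, fun d s hs => hu y (hfix z) d s hs⟩
  choose u hu using hu
  have hcancel : ∀ v w : ℂ, v • evv G y = w • evv G y → v = w := by
    intro v w h
    have h2 : (v - w) • evv G y = 0 := by rw [sub_smul, h, sub_self]
    exact sub_eq_zero.1 ((smul_eq_zero.1 h2).resolve_right hGne)
  have hu1 : u 1 = 1 := by
    apply hcancel
    rw [← hu 1 a G hG, Pi.mulSingle_one, A.one a G hG, one_smul]
  have humul : ∀ z w, u (z * w) = u z * u w := by
    intro z w
    apply hcancel
    rw [← hu (z * w) a G hG, Pi.mulSingle_mul, A.mul _ _ a G hG,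
      hu w a _ ((A.O _).sec a G hG), hu z a G hG, smul_smul, mul_comm]
  let f : rootsOfUnity N ℂ →* ℂ := { toFun := u, map_one' := hu1, map_mul' := humul }
  refine ⟨f.toHomUnits, y, hy0, fun z => ⟨hfix z, fun d s hs => ?_⟩⟩
  rw [hu z d s hs]
  rfl

theorem exists_char (hn : 3 ≤ n) (hE : ¬ E.Splits) :
    ∃ θ : Mu n N →* ℂˣ, ∀ r, A.Refl r → ∃ y : Fin (n + 1) → ℂ, y ≠ 0 ∧ A.ρ r y = y ∧
      ∀ (d : ℤ) s, Sec E d s → evv ((A.O r).D s) y = (θ r : ℂ) • evv s y := by
  classical
  choose θ y hy h using fun i => exists_char_single A hρ hn hE i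
  refine ⟨∏ i, (θ i).comp (Pi.evalMonoidHom _ i), fun r hr => ?_⟩
  obtain ⟨i, hi⟩ := refl_eq_single A hρ (by omega) hr
  have h1 : ((∏ i, (θ i).comp (Pi.evalMonoidHom _ i) : Mu n N →* ℂˣ) r) = θ i (r i) := by
    rw [MonoidHom.finsetProd_apply, Finset.prod_eq_single i]
    · rfl
    · intro k _ hk
      show θ k (r k) = 1
      rw [hi, Pi.mulSingle_eq_of_ne hk, map_one]
    · intro h
      exact absurd (Finset.mem_univ _) h
  refine ⟨y i, hy i, ?_, fun d s hs => ?_⟩
  · rw [hi]
    exact (h i (r i)).1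
  · rw [h1]
    have h2 := (h i (r i)).2 d s hs
    rw [← hi] at h2
    exact h2

end Pool.Agent.T4h19.DG
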