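import Pool.Agent.T4h19.Stm

/-! # Project RG, task chi: the character -/

set_option autoImplicit false
set_option maxHeartbeats 400000

open MvPolynomial H960VB H938TB Pool.Agent.W615 Pool.Agent.W467.FO

namespace Pool.Agent.T4h19

namespace Chi

variable {n : ℕ} {E : Bundle2 n} {Γ : Type} [Group Γ]

theorem inj (A : Act E Γ) (g : Γ) : Function.Injective (A.ρ g) := by
  have h : ∀ z, A.ρ g⁻¹ (A.ρ g z) = z := by
    intro z
    have h1 := A.ρ_mul g⁻¹ g
    rw [inv_mul_cancel, A.ρ_one] at h1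
    have h2 := congrArg (fun f : LM n => f z) h1
    exact h2.symm
  intro x y hxy
  rw [← h x, ← h y, hxy]

end Chi

theorem t_chi : S_chi := by
  intro n E Γ _ A W hn hx
  have hdet : ∀ g, ∃ κ : ℂ, κ ≠ 0 ∧ ∀ (a b : ℤ) (s t : Vec E.a n), Sec E a s → Sec E b t →
      W.wd ((A.O g).D s) ((A.O g).D t) = C κ * lsub (A.ρ g) (W.wd s t) :=
    fun g => GOp.det (A.O g) W hn (Chi.inj A g)
  choose κ hκ0 hκ using hdet
  have key : ∀ g (d e : ℤ) (s t : Vec E.a n), A.Inv d s → A.Inv e t →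
      lsub (A.ρ g) (W.wd s t) = C (κ g)⁻¹ * W.wd s t := by
    intro g d e s t hs ht
    have h := hκ g d e s t hs.1 ht.1
    rw [hs.2 g, ht.2 g] at h
    calc lsub (A.ρ g) (W.wd s t) = C ((κ g)⁻¹ * κ g) * lsub (A.ρ g) (W.wd s t) := by
          rw [inv_mul_cancel₀ (hκ0 g), C_1, one_mul]
      _ = C (κ g)⁻¹ * (C (κ g) * lsub (A.ρ g) (W.wd s t)) := by rw [C_mul, mul_assoc]
      _ = C (κ g)⁻¹ * W.wd s t := by rw [← h]
  refine ⟨fun g => (κ g)⁻¹, fun g hg => ?_, key⟩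
  unfold Act.Refl at hg
  have h1 : 0 < Module.finrank ℂ (LinearMap.ker (A.ρ g - LinearMap.id)) := by omega
  obtain ⟨⟨x, hxk⟩, hx0⟩ := Module.finrank_pos_iff_exists_ne_zero.1 h1
  have hx0' : x ≠ 0 := fun h => hx0 (Subtype.ext h)
  have hTx : A.ρ g x = x := by
    rw [LinearMap.mem_ker, LinearMap.sub_apply, LinearMap.id_apply] at hxk
    exact sub_eq_zero.1 hxk
  obtain ⟨d, e, s, t, hs, ht, hst⟩ := hx x hx0'
  have h2 := congrArg (eval x) (key g d e s t hs ht)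
  rw [eval_lsub, hTx, map_mul, eval_C] at h2
  have h3 : (1 : ℂ) * eval x (W.wd s t) = (κ g)⁻¹ * eval x (W.wd s t) := by rw [one_mul]; exact h2
  exact (mul_right_cancel₀ hst h3).symm

end Pool.Agent.T4h19
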