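import Pool.Agent.T4h19.RG1
import Pool.Agent.H106R3.VB.Jump

/-!
# Bundles with the symmetries `diag (ζ_0, …, ζ_n)`: preparations
-/

set_option autoImplicit false
set_option maxHeartbeats 400000

open MvPolynomial H960VB H938TB Pool.Agent.W615 Pool.Agent.W467.FO

namespace Pool.Agent.T4h19.DG

variable {n : ℕ}

theorem lsub_diag_monomial {m : ℕ} {T : LM m} {c : Fin (m + 1) → ℂ}
    (hT : ∀ x j, T x j = c j * x j) (u : Fin (m + 1) →₀ ℕ) (a : ℂ) :
    lsub T (monomial u a) = monomial u ((∏ j, c j ^ u j) * a) := by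
  have hX : ∀ s : Fin (m + 1), lsub T (X s) = C (c s) * X s := by
    intro s
    unfold lsub
    rw [aeval_X, Finset.sum_eq_single s]
    · rw [hT, Pi.single_eq_same, mul_one]
    · intro t _ hts
      rw [hT, Pi.single_eq_of_ne (Ne.symm hts), mul_zero, C_0, zero_mul]
    · intro h
      exact absurd (Finset.mem_univ _) h
  have h1 : (monomial u a : MvPolynomial (Fin (m + 1)) ℂ) = C a * ∏ j, X j ^ u j := by
    rw [monomial_eq, Finsupp.prod_fintype _ _ (by simp)]
  have h2 : (monomial u ((∏ j, c j ^ u j) * a) : MvPolynomial (Fin (m + 1)) ℂ) =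
      C ((∏ j, c j ^ u j) * a) * ∏ j, X j ^ u j := by
    rw [monomial_eq, Finsupp.prod_fintype _ _ (by simp)]
  rw [h2, h1, map_mul, map_prod]
  have h3 : lsub T (C a) = C a := (lsub T).commutes a
  rw [h3, C_mul, map_prod, mul_comm (∏ j, C _) (C a), mul_assoc, ← Finset.prod_mul_distrib]
  congr 1
  refine Finset.prod_congr rfl fun j _ => ?_
  rw [map_pow, hX, mul_pow, map_pow]

theorem coeff_lsub_diag {m : ℕ} {T : LM m} {c : Fin (m + 1) → ℂ}
    (hT : ∀ x j, T x j = c j * x j) (q : MvPolynomial (Fin (m + 1)) ℂ)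
    (u : Fin (m + 1) →₀ ℕ) : coeff u (lsub T q) = (∏ j, c j ^ u j) * coeff u q := by
  classical
  induction q using MvPolynomial.induction_on' with
  | monomial v a =>
    rw [lsub_diag_monomial hT, coeff_monomial, coeff_monomial]
    by_cases h : v = u
    · rw [if_pos h, if_pos h, h]
    · rw [if_neg h, if_neg h, mul_zero]
  | add p q hp hq => rw [map_add, coeff_add, coeff_add, hp, hq, mul_add]

/-- the group `μ_N^(n+1)` -/
abbrev Mu (n N : ℕ) : Type := Fin (n + 1) → rootsOfUnity N ℂ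

section group

variable {N : ℕ} [NeZero N] {E : Bundle2 n} (A : Act E (Mu n N))
  (hρ : ∀ ζ x j, A.ρ ζ x j = ((ζ j : ℂˣ) : ℂ) * x j)

include hρ

theorem refl_single (i : Fin (n + 1)) (z : rootsOfUnity N ℂ) : A.Refl (Pi.mulSingle i z) := by
  unfold Act.Refl
  let f : (Fin n → ℂ) →ₗ[ℂ] (Fin (n + 1) → ℂ) :=
    { toFun := fun y => i.insertNth (0 : ℂ) y
      map_add' := by
        intro x y
        funext j
        refine Fin.succAboveCases i ?_ (fun k => ?_) j <;> simp
      map_smul' := by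
        intro a x
        funext j
        refine Fin.succAboveCases i ?_ (fun k => ?_) j <;> simp }
  have hf : ∀ y, f y ∈ LinearMap.ker (A.ρ (Pi.mulSingle i z) - LinearMap.id) := by
    intro y
    rw [LinearMap.mem_ker, LinearMap.sub_apply, LinearMap.id_apply, sub_eq_zero]
    funext j
    rw [hρ]
    refine Fin.succAboveCases i ?_ (fun k => ?_) j
    · show _ * (i.insertNth (0 : ℂ) y : Fin (n + 1) → ℂ) i =
        (i.insertNth (0 : ℂ) y : Fin (n + 1) → ℂ) i
      rw [Fin.insertNth_apply_same, mul_zero]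
    · rw [Pi.mulSingle_eq_of_ne (Fin.succAbove_ne i k)]
      simp
  have hinj : Function.Injective (f.codRestrict _ hf) := by
    intro x y h
    have h1 : f x = f y := congrArg Subtype.val h
    funext k
    have h2 := congrFun h1 (i.succAbove k)
    change (i.insertNth (0 : ℂ) x : Fin (n + 1) → ℂ) (i.succAbove k) =
      (i.insertNth (0 : ℂ) y : Fin (n + 1) → ℂ) (i.succAbove k) at h2
    rwa [Fin.insertNth_apply_succAbove, Fin.insertNth_apply_succAbove] at h2
  have := LinearMap.finrank_le_finrank_of_injective hinj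
  rwa [Module.finrank_fintype_fun_eq_card, Fintype.card_fin] at this

theorem steinberg : A.St := by
  intro x _ g hg
  rw [← Finset.univ_prod_mulSingle g]
  refine Subgroup.prod_mem _ fun i _ => Subgroup.subset_closure ⟨refl_single A hρ i (g i), ?_⟩
  funext j
  rw [hρ]
  by_cases hj : j = i
  · subst hj
    rw [Pi.mulSingle_eq_same]
    have := congrFun hg j
    rwa [hρ] at this
  · rw [Pi.mulSingle_eq_of_ne hj]
    simp

/-- exponents of the wedge products of invariant sections -/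
theorem expo (W : Wedge (triv E)) {χ : Mu n N → ℂ} (hχ1 : ∀ g, A.Refl g → χ g = 1)
    (hχ2 : ∀ g (d e : ℤ) (s t : Vec E.a n), A.Inv d s → A.Inv e t →
      lsub (A.ρ g) (W.wd s t) = C (χ g) * W.wd s t) {d e : ℤ} {s t : Vec E.a n}
    (hs : A.Inv d s) (ht : A.Inv e t) {w : Fin (n + 1) →₀ ℕ} (hw : coeff w (W.wd s t) ≠ 0)
    (i : Fin (n + 1)) : N ∣ w i := by
  classical
  obtain ⟨z, hz⟩ := Complex.isPrimitiveRoot_exp N (NeZero.ne N) |>.isUnit (NeZero.ne N)
  have hz' : IsPrimitiveRoot (z : ℂ) N := by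
    rw [hz]
    exact Complex.isPrimitiveRoot_exp N (NeZero.ne N)
  have hzm : z ∈ rootsOfUnity N ℂ := by
    rw [mem_rootsOfUnity]
    apply Units.ext
    rw [Units.val_pow_eq_pow_val, hz'.pow_eq_one, Units.val_one]
  have h1 := hχ2 (Pi.mulSingle i ⟨z, hzm⟩) d e s t hs ht
  rw [hχ1 _ (refl_single A hρ i ⟨z, hzm⟩), C_1, one_mul] at h1
  have h2 := coeff_lsub_diag (T := A.ρ (Pi.mulSingle i ⟨z, hzm⟩))
    (c := fun j => (((Pi.mulSingle i (⟨z, hzm⟩ : rootsOfUnity N ℂ) : Mu n N) j : ℂˣ) : ℂ))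
    (hρ _) (W.wd s t) w
  rw [h1, Finset.prod_eq_single i, Pi.mulSingle_eq_same] at h2
  · have h3 : (z : ℂ) ^ w i = 1 := by
      have h4 : ((z : ℂ) ^ w i - 1) * coeff w (W.wd s t) = 0 := by linear_combination -h2
      exact sub_eq_zero.1 ((mul_eq_zero.1 h4).resolve_right hw)
    exact hz'.dvd_of_pow_eq_one _ h3
  · intro j _ hj
    rw [Pi.mulSingle_eq_of_ne hj]
    simp
  · intro h
    exact absurd (Finset.mem_univ _) h

end group

/-- the degree of a nonzero polynomial whose exponents are divisible by `N` -/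
theorem dvd_degree {N : ℕ} {p : MvPolynomial (Fin (n + 1)) ℂ} {D : ℤ} (hp : HomZ p D)
    (h0 : p ≠ 0) (h : ∀ w, coeff w p ≠ 0 → ∀ i, N ∣ w i) : (N : ℤ) ∣ D := by
  rcases hp with rfl | ⟨k, hk, hh⟩
  · exact absurd rfl h0
  · obtain ⟨w, hw⟩ := ne_zero_iff.1 h0
    have h4 := hh hw
    rw [Finsupp.weight_apply, Finsupp.sum_fintype _ _ (by simp)] at h4
    have h5 : ∑ i, w i = k := by simpa using h4
    rw [← hk, ← h5]
    exact_mod_cast Finset.dvd_sum fun i _ => h w hw i

/-- all invariant sections have the same degree modulo `N`, if the bundle does not split -/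
theorem same_class {N : ℕ} (hn : 1 ≤ n) {E : Bundle2 n} (hE : ¬ E.Splits) (W : Wedge (triv E))
    (Q : ℤ → Vec E.a n → Prop) (hQ : ∀ d s, Q d s → Sec E d s)
    (hgen : ∀ x : Fin (n + 1) → ℂ, x ≠ 0 → ∃ (d e : ℤ) (s t : Vec E.a n), Q d s ∧ Q e t ∧
      eval x (W.wd s t) ≠ 0)
    (hdeg : ∀ d e s t, Q d s → Q e t → W.wd s t ≠ 0 → (N : ℤ) ∣ d + e + W.κ.1)
    {a b : ℤ} {s t : Vec E.a n} (hs : Q a s) (ht : Q b t) (hs0 : ∃ i, s i ≠ 0)
    (ht0 : ∃ i, t i ≠ 0) : (N : ℤ) ∣ a - b := by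
  by_contra hab
  have ks := (hQ _ _ hs).ker
  have kt := (hQ _ _ ht).ker
  -- two generators
  obtain ⟨d, e, r, r', hr, hr', hrr⟩ := hgen (fun _ => 1) (fun h => by simpa using congrFun h 0)
  have hrr0 : W.wd r r' ≠ 0 := fun h0 => hrr (by rw [h0, map_zero])
  have kr := (hQ _ _ hr).ker
  have kr' := (hQ _ _ hr').ker
  -- the product of `s` and `t` is not zero
  have hst : W.wd s t ≠ 0 := by
    intro h0
    obtain ⟨c, y, hy, hsy⟩ : ∃ (c : ℤ) (y : Vec E.a n), Q c y ∧ W.wd s y ≠ 0 := by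
      rcases wd_ne_or W kr kr' ks hrr0 hs0 with h | h
      · exact ⟨d, r, hr, fun h1 => h (by rw [W.anti r s kr ks, h1, neg_zero])⟩
      · exact ⟨e, r', hr', fun h1 => h (by rw [W.anti r' s kr' ks, h1, neg_zero])⟩
    have ky := (hQ _ _ hy).ker
    have hty : W.wd t y ≠ 0 := by
      intro h1
      obtain ⟨i, hi⟩ := ht0
      have h2 := W.three t s y kt ks ky i
      rw [h1, W.anti t s kt ks, h0] at h2
      have h3 : W.wd s y * t i = 0 := by linear_combination h2
      exact mul_ne_zero hsy hi h3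
    apply hab
    have h4 := hdeg _ _ _ _ hs hy hsy
    have h5 := hdeg _ _ _ _ ht hy hty
    have h6 : a - b = (a + c + W.κ.1) - (b + c + W.κ.1) := by ring
    rw [h6]
    exact dvd_sub h4 h5
  obtain ⟨δ, g, s', hg0, hg, hs', hsp, hGs⟩ := exists_prm (hQ _ _ hs) hs0
  obtain ⟨δ', g', t', hg0', hg', ht', htp, hGt⟩ := exists_prm (hQ _ _ ht) ht0
  have key : ∀ (c : ℤ) (y : Vec E.a n), Q c y →
      (∃ f, ∀ i, y i = f * s' i) ∨ (∃ f, ∀ i, y i = f * t' i) := by
    intro c y hy
    have ky := (hQ _ _ hy).ker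
    by_cases h1 : W.wd s y = 0
    · left
      apply hsp.dvd_wd W hs'.ker ky
      rw [wd_of_mul_left W hs'.ker ky hGs] at h1
      exact (mul_eq_zero.1 h1).resolve_left hg0
    · by_cases h2 : W.wd t y = 0
      · right
        apply htp.dvd_wd W ht'.ker ky
        rw [wd_of_mul_left W ht'.ker ky hGt] at h2
        exact (mul_eq_zero.1 h2).resolve_left hg0'
      · exfalso
        apply hab
        have h6 : a - b = (a + c + W.κ.1) - (b + c + W.κ.1) := by ring
        rw [h6]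
        exact dvd_sub (hdeg _ _ _ _ hs hy h1) (hdeg _ _ _ _ ht hy h2)
  apply hE
  refine splits_of_no_zero W hn hs' ht' fun x hx h1 => ?_
  obtain ⟨d, e, y, y', hy, hy', hne⟩ := hgen x hx
  exact hne (zero_of_key W hs'.ker ht'.ker (hQ _ _ hy).ker (hQ _ _ hy').ker h1 (key _ _ hy)
    (key _ _ hy'))

end Pool.Agent.T4h19.DG
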