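import Pool.Agent.T4h19.DG1

/-!
# Pullbacks of rank two bundles under `x_i ↦ x_i ^ N`
-/

set_option autoImplicit false
set_option maxHeartbeats 400000

open MvPolynomial H960VB H938TB Pool.Agent.W615 Pool.Agent.W467.FO

namespace Pool.Agent.T4h19.DG

variable {n : ℕ}

theorem eval_expand' {σ : Type*} (N : ℕ) (x : σ → ℂ) (p : MvPolynomial σ ℂ) :
    eval x (expand N p) = eval (fun i => x i ^ N) p := by
  have h : (eval x).comp (expand N : MvPolynomial σ ℂ →ₐ[ℂ] MvPolynomial σ ℂ).toRingHom =
      eval (fun i => x i ^ N) := by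
    apply MvPolynomial.ringHom_ext
    · intro r
      simp
    · intro i
      simp
  exact congrFun (congrArg DFunLike.coe h) p

theorem homZ_expand {σ : Type*} {N : ℕ} {p : MvPolynomial σ ℂ} {D : ℤ} (h : HomZ p D) :
    HomZ (expand N p) (N * D) := by
  rcases h with rfl | ⟨k, hk, h⟩
  · left
    rw [map_zero]
  · right
    refine ⟨N * k, by rw [← hk]; push_cast; rfl, ?_⟩
    have h1 := h.aeval (n := N) (fun i : σ => (X i : MvPolynomial σ ℂ) ^ N) (fun i => by
      have := (isHomogeneous_X ℂ i).pow N
      rwa [one_mul] at this)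
    exact h1

theorem expand_injective' {σ : Type*} {N : ℕ} (hN : 1 ≤ N) :
    Function.Injective (expand N : MvPolynomial σ ℂ →ₐ[ℂ] MvPolynomial σ ℂ) := by
  rw [injective_iff_map_eq_zero]
  intro p hp
  apply MvPolynomial.funext
  intro y
  choose x hx using fun i => IsAlgClosed.exists_pow_nat_eq (y i) (by omega : 0 < N)
  have h1 := eval_expand' N x p
  rw [hp, map_zero] at h1
  have h2 : (fun i => x i ^ N) = y := funext hx
  rw [h2] at h1
  rw [← h1, map_zero]

/-- a polynomial whose exponents are divisible by `N` is a polynomial in the `x_i ^ N` -/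
theorem exists_contract {N : ℕ} (hN : 1 ≤ N) {p : MvPolynomial (Fin (n + 1)) ℂ}
    (h : ∀ w, coeff w p ≠ 0 → ∀ i, N ∣ w i) :
    ∃ q, expand N q = p ∧ ∀ D : ℤ, HomZ p (N * D) → HomZ q D := by
  classical
  let f : (Fin (n + 1) →₀ ℕ) → (Fin (n + 1) →₀ ℕ) := fun w =>
    Finsupp.equivFunOnFinite.symm fun i => w i / N
  have hf : ∀ w ∈ p.support, ∀ i, w i = N * f w i := by
    intro w hw i
    obtain ⟨k, hk⟩ := h w (mem_support_iff.1 hw) i
    show w i = N * (w i / N)
    rw [hk, Nat.mul_div_cancel_left _ (by omega)]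
  refine ⟨∑ w ∈ p.support, monomial (f w) (coeff w p), ?_, ?_⟩
  · rw [map_sum]
    conv_rhs => rw [p.as_sum]
    refine Finset.sum_congr rfl fun w hw => ?_
    rw [monomial_eq, monomial_eq, map_mul, Finsupp.prod_fintype _ _ (by simp),
      Finsupp.prod_fintype _ _ (by simp), map_prod]
    congr 1
    · exact (expand N : MvPolynomial (Fin (n + 1)) ℂ →ₐ[ℂ] _).commutes _
    · refine Finset.prod_congr rfl fun i _ => ?_
      rw [map_pow, expand_X, ← pow_mul, ← hf w hw i]
  · intro D hD
    rcases hD with rfl | ⟨k, hk, hh⟩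
    · left
      rw [support_zero, Finset.sum_empty]
    · by_cases hp0 : p = 0
      · left
        rw [hp0, support_zero, Finset.sum_empty]
      obtain ⟨w₀, hw₀⟩ := ne_zero_iff.1 hp0
      have hdeg : ∀ w ∈ p.support, (N : ℤ) * ((∑ i, f w i : ℕ) : ℤ) = N * D := by
        intro w hw
        have h4 := hh (mem_support_iff.1 hw)
        rw [Finsupp.weight_apply, Finsupp.sum_fintype _ _ (by simp)] at h4
        have h5 : ∑ i, w i = k := by simpa using h4
        rw [← hk, ← h5]
        push_cast
        rw [Finset.mul_sum]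
        refine Finset.sum_congr rfl fun i _ => ?_
        rw [hf w hw i]
        push_cast
        rfl
      have hN0 : (N : ℤ) ≠ 0 := by exact_mod_cast (by omega : N ≠ 0)
      right
      refine ⟨∑ i, f w₀ i, ?_, ?_⟩
      · exact mul_left_cancel₀ hN0 (hdeg w₀ (mem_support_iff.2 hw₀))
      · apply IsHomogeneous.sum
        intro w hw
        have h6 : ∑ i, f w i = ∑ i, f w₀ i := by
          have h7 := (hdeg w hw).trans (hdeg w₀ (mem_support_iff.2 hw₀)).symm
          exact_mod_cast mul_left_cancel₀ hN0 h7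
        rw [← h6]
        refine isHomogeneous_monomial _ ?_
        rw [Finsupp.degree_eq_sum]

/-- the twist by `a` of the pullback of `E` under `x_i ↦ x_i ^ N`: the matrix `B(x_0 ^ N, …, x_n ^ N)` -/
noncomputable def powPull (N : ℕ) (hN : 1 ≤ N) (a : ℤ) (E : Bundle2 n) : Bundle2 n where
  a := E.a
  c := E.c
  β := fun i => N * E.β i + a
  γ := fun k => N * E.γ k + a
  B := E.B.map (expand N)
  hom := fun k i => by
    have h1 := homZ_expand (N := N) (E.hom k i)
    rw [Matrix.map_apply]
    have h2 : (N : ℤ) * E.γ k + a - (N * E.β i + a) = N * (E.γ k - E.β i) := by ring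
    rw [h2]
    exact h1
  rank_two := by
    intro x hx
    have h : evm (E.B.map (expand N)) x = evm E.B (fun i => x i ^ N) := by
      ext k i
      exact eval_expand' N x (E.B k i)
    rw [h]
    refine E.rank_two _ fun h0 => hx ?_
    funext i
    exact (pow_eq_zero_iff (by omega : N ≠ 0)).1 (congrFun h0 i)

end Pool.Agent.T4h19.DG
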