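import Pool.Agent.T4h19.DG2

/-!
# Bundles with the symmetries `diag (ζ_0, …, ζ_n)` are pullbacks under `x_i ↦ x_i ^ N`
-/

set_option autoImplicit false
set_option maxHeartbeats 400000

open MvPolynomial H960VB H938TB Pool.Agent.W615 Pool.Agent.W467.FO

namespace Pool.Agent.T4h19.DG

variable {n : ℕ}

theorem pow_main (hn : 3 ≤ n) {E : Bundle2 n} (hE : ¬ E.Splits) {N : ℕ} [NeZero N] (hN : 1 ≤ N)
    (A : Act E (Mu n N)) (hρ : ∀ ζ x j, A.ρ ζ x j = ((ζ j : ℂˣ) : ℂ) * x j) (hNm : A.Nm) :
    ∃ (E' : Bundle2 n) (a : ℤ) (Ψ : Vec E.a n → Vec (powPull N hN a E').a n), ¬ E'.Splits ∧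
      (∀ d G, Sec E d G → Sec (powPull N hN a E') d (Ψ G)) ∧
      (∀ d G G', Sec E d G → Sec E d G' → Ψ (fun i => G i + G' i) = fun i => Ψ G i + Ψ G' i) ∧
      (∀ d (p : MvPolynomial (Fin (n + 1)) ℂ) G, Sec E d G →
        Ψ (fun i => p * G i) = fun i => p * Ψ G i) ∧
      (∀ d H, Sec (powPull N hN a E') d H → ∃! G, Sec E d G ∧ Ψ G = H) := by
  have hSt : A.St := steinberg A hρ
  have hTr : A.Tr := t_triv t_scal n E (Mu n N) A hn hE hSt hNm
  obtain ⟨W⟩ := exists_wedge (by omega : 1 ≤ n) (triv E)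
  have hgen := t_gen n E (Mu n N) A W hTr
  obtain ⟨χ, hχ1, hχ2⟩ := t_chi n E (Mu n N) A W (by omega) hgen
  have hexp : ∀ (d e : ℤ) (s t : Vec E.a n), A.Inv d s → A.Inv e t →
      ∀ w, coeff w (W.wd s t) ≠ 0 → ∀ i, N ∣ w i :=
    fun d e s t hs ht w hw i => expo A hρ W hχ1 hχ2 hs ht hw i
  have hdeg : ∀ (d e : ℤ) (s t : Vec E.a n), A.Inv d s → A.Inv e t → W.wd s t ≠ 0 →
      (N : ℤ) ∣ d + e + W.κ.1 := fun d e s t hs ht h0 =>
    dvd_degree (wd_homZ W hs.1 ht.1) h0 (hexp d e s t hs ht)
  -- the class of the degrees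
  obtain ⟨d0, e0, s0, t0, hs0, ht0, hst0⟩ := hgen (fun _ => 1) (fun h => by simpa using congrFun h 0)
  have hst0' : W.wd s0 t0 ≠ 0 := fun h0 => hst0 (by rw [h0, map_zero])
  have hs0' := ne_of_wd_left W hs0.1.ker ht0.1.ker hst0'
  have hcl : ∀ d s, A.Inv d s → (∃ i, s i ≠ 0) → (N : ℤ) ∣ d - d0 := fun d s hs h =>
    same_class (N := N) (by omega) hE W A.Inv (fun d s h => h.1) hgen hdeg hs hs0 h hs0'
  obtain ⟨M, δ, s, hs, hne⟩ := t_fam n E W (fun d s => A.Inv d s ∧ (N : ℤ) ∣ d - d0) (by
    intro x hx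
    obtain ⟨d, e, s, t, hs, ht, h⟩ := hgen x hx
    have h0 : W.wd s t ≠ 0 := fun h0 => h (by rw [h0, map_zero])
    exact ⟨d, e, s, t, ⟨hs, hcl d s hs (ne_of_wd_left W hs.1.ker ht.1.ker h0)⟩,
      ⟨ht, hcl e t ht (ne_of_wd_right W hs.1.ker ht.1.ker h0)⟩, h⟩)
  have hsec : ∀ i, Sec E (δ i) (s i) := fun i => (hs i).1.1
  obtain ⟨c, γ, B, hom, rk, hent, hker⟩ := t_gram n E W M δ s hsec hne
  have hBexp : ∀ k i, ∀ w, coeff w (B k i) ≠ 0 → ∀ j, N ∣ w j := by
    intro k i w hw j
    rcases hent k i with h | ⟨a, b, h⟩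
    · rw [h, coeff_zero] at hw
      exact absurd rfl hw
    · rw [h] at hw
      exact hexp _ _ _ _ (hs a).1 (hs b).1 w hw j
  choose B' hB' hB'D using fun k i => exists_contract hN (hBexp k i)
  choose β' hβ' using fun i => (hs i).2
  have hN0 : (N : ℤ) ≠ 0 := by exact_mod_cast (by omega : N ≠ 0)
  let γ' : Fin c → ℤ := fun k => (γ k - W.κ.1 - d0) / N
  have hom' : ∀ k i, HomZ (B' k i) (γ' k - β' i) := by
    intro k i
    by_cases h0 : B k i = 0
    · left
      apply expand_injective' hN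
      rw [hB', h0, map_zero]
    · obtain ⟨D, hD⟩ := dvd_degree (hom k i) h0 (hBexp k i)
      have h1 : HomZ (B k i) (N * D) := by
        rw [← hD]
        exact hom k i
      have h2 := hB'D k i D h1
      have h3 : γ k - W.κ.1 - d0 = N * (D + β' i) := by
        have := hβ' i
        linear_combination hD + this
      have h4 : γ' k = D + β' i := by
        show (γ k - W.κ.1 - d0) / N = D + β' i
        rw [h3, Int.mul_ediv_cancel_left _ hN0]
      rw [h4, add_sub_cancel_right]
      exact h2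
  let E' : Bundle2 n :=
    { a := M, c := c, β := β', γ := γ', B := Matrix.of B', hom := hom'
      rank_two := by
        intro x hx
        choose y hy using fun i => IsAlgClosed.exists_pow_nat_eq (x i) (by omega : 0 < N)
        have hy' : (fun i => y i ^ N) = x := funext hy
        have h1 : evm (Matrix.of B') x = evm B y := by
          ext k i
          show eval x (B' k i) = eval y (B k i)
          rw [← hB' k i, eval_expand', hy']
        rw [h1]
        refine rk y fun h0 => hx ?_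
        rw [← hy', h0]
        funext i
        show (0 : ℂ) ^ N = 0
        rw [zero_pow (by omega)] }
  have hβF : ∀ i, (powPull N hN (d0 + W.κ.1) E').β i = δ i + W.κ.1 := by
    intro i
    show (N : ℤ) * β' i + (d0 + W.κ.1) = δ i + W.κ.1
    have := hβ' i
    linear_combination -this
  have hBF : ∀ k i, (powPull N hN (d0 + W.κ.1) E').B k i = B k i := fun k i => hB' k i
  have hkerF : ∀ p : Vec M n, Ker (powPull N hN (d0 + W.κ.1) E') p ↔ ∀ k, ∑ i, B k i * p i = 0 := by
    intro p
    constructor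
    · intro h k
      rw [← h k]
      exact Finset.sum_congr rfl fun i _ => congrArg (· * p i) (hBF k i).symm
    · intro h k
      refine Eq.trans ?_ (h k)
      exact Finset.sum_congr rfl fun i _ => congrArg (· * p i) (hBF k i)
  have hlift : ∀ d H, Sec (powPull N hN (d0 + W.κ.1) E') d H →
      ∃ G, Sec E d G ∧ ∀ i, W.wd G (s i) = H i := by
    intro d H hH
    exact t_lift n E W M δ s (by omega) hsec hne d H (fun i => by
      have h1 := hH.homZ i
      have h2 : (powPull N hN (d0 + W.κ.1) E').β i + d = d + (δ i + W.κ.1) := by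
        have := hβF i
        linear_combination this
      exact h2 ▸ h1) ((hker H).1 ((hkerF H).1 hH.ker))
  refine ⟨E', d0 + W.κ.1, fun G i => W.wd G (s i), ?_, ?_, ?_, ?_, ?_⟩
  · rintro ⟨p, q, G₁, G₂, h₁, h₂, h₃⟩
    have hS : ∀ (p : ℤ) (G : Vec M n), E'.IsSection (-p) G →
        Sec (powPull N hN (d0 + W.κ.1) E') (-(N * p) - (d0 + W.κ.1)) (fun i => expand N (G i)) := by
      intro p G hG
      apply sec_of_isSection
      refine ⟨fun i => ?_, fun x hx => ?_⟩
      · have h4 := homZ_expand (N := N) (hG.1 i)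
        have h5 : (powPull N hN (d0 + W.κ.1) E').β i + (-(N * p) - (d0 + W.κ.1)) =
            N * (E'.β i + -p) := by
          show (N : ℤ) * E'.β i + (d0 + W.κ.1) + (-(N * p) - (d0 + W.κ.1)) = N * (E'.β i + -p)
          ring
        rw [h5]
        exact h4
      · have hx' : (fun i => x i ^ N) ≠ 0 := fun h0 => hx (funext fun i =>
          (pow_eq_zero_iff (by omega : N ≠ 0)).1 (congrFun h0 i))
        have h4 := hG.2 _ hx'
        have h5 : evv (fun i : Fin E'.a => expand N (G i)) x = evv G (fun i => x i ^ N) := by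
          funext i
          exact eval_expand' N x (G i)
        have h6 : evm (powPull N hN (d0 + W.κ.1) E').B x = evm E'.B (fun i => x i ^ N) := by
          ext k i
          exact eval_expand' N x (E'.B k i)
        have h7 : (powPull N hN (d0 + W.κ.1) E').fib x = E'.fib (fun i => x i ^ N) := by
          unfold Bundle2.fib
          rw [h6]
          rfl
        have k1 : evv (fun i : Fin E'.a => expand N (G i)) x ∈ E'.fib (fun i => x i ^ N) := by
          rw [h5]
          exact h4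
        exact h7.symm ▸ k1
    obtain ⟨K₁, hK₁, hK₁'⟩ := hlift _ _ (hS p G₁ h₁)
    obtain ⟨K₂, hK₂, hK₂'⟩ := hlift _ _ (hS q G₂ h₂)
    apply hE
    refine splits_of_no_zero W (by omega) hK₁ hK₂ fun x hx h0 => ?_
    have hx' : (fun i => x i ^ N) ≠ 0 := fun h0 => hx (funext fun i =>
      (pow_eq_zero_iff (by omega : N ≠ 0)).1 (congrFun h0 i))
    have h7 := h₃ _ hx'
    rw [H938TB.T3aux.li_iff] at h7
    obtain ⟨i, j, h7⟩ := h7
    apply h7
    have h8 := congrArg (eval x) (W.four K₁ K₂ (s i) (s j) hK₁.ker hK₂.ker (hsec i).ker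
      (hsec j).ker)
    rw [map_add, map_sub, map_mul, map_mul, map_mul, h0, hK₁', hK₂', hK₁', hK₂', eval_expand',
      eval_expand', eval_expand', eval_expand', map_zero] at h8
    show eval (fun i => x i ^ N) (G₁ i) * eval (fun i => x i ^ N) (G₂ j) -
      eval (fun i => x i ^ N) (G₁ j) * eval (fun i => x i ^ N) (G₂ i) = 0
    linear_combination -h8
  · intro d G hG
    refine ⟨fun i => ?_, ?_⟩
    · have h1 := wh_triv (wd_homZ W hG (hsec i))
      have h2 : ((d + δ i + W.κ.1, 0) : H938TB.M) = (((powPull N hN (d0 + W.κ.1) E').β i,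
          (triv (powPull N hN (d0 + W.κ.1) E')).b i) + ((d, 0) : H938TB.M) : H938TB.M) := by
        have h3 : (powPull N hN (d0 + W.κ.1) E').β i = δ i + W.κ.1 := hβF i
        refine Prod.ext ?_ ?_
        · show d + δ i + W.κ.1 = (powPull N hN (d0 + W.κ.1) E').β i + d
          rw [h3]
          ring
        · simp [triv]
      exact h2 ▸ h1
    · exact (hkerF _).2 ((hker (fun i => W.wd G (s i))).2 fun i j k => by
        have h1 := W.four G (s i) (s j) (s k) hG.ker (hsec i).ker (hsec j).ker (hsec k).ker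
        linear_combination h1)
  · intro d G G' hG hG'
    funext i
    exact wd_add_left W hG.ker hG'.ker (hsec i).ker
  · intro d p G hG
    funext i
    exact W.smul p G (s i) hG.ker (hsec i).ker
  · intro d H hH
    obtain ⟨G, hG, hG'⟩ := hlift d H hH
    refine ⟨G, ⟨hG, funext hG'⟩, ?_⟩
    rintro K ⟨hK, hK'⟩
    obtain ⟨i, j, hij⟩ := hne (fun _ => 1) (fun h => by simpa using congrFun h 0)
    have h0 : W.wd (s i) (s j) ≠ 0 := fun h0 => hij (by rw [h0, map_zero])
    funext l
    have h1 := W.three K (s i) (s j) hK.ker (hsec i).ker (hsec j).ker l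
    have h2 := W.three G (s i) (s j) hG.ker (hsec i).ker (hsec j).ker l
    have h3 : W.wd K (s i) = W.wd G (s i) := (congrFun hK' i).trans (hG' i).symm
    have h4 : W.wd K (s j) = W.wd G (s j) := (congrFun hK' j).trans (hG' j).symm
    apply mul_left_cancel₀ h0
    rw [h3, h4] at h1
    linear_combination h1 - h2

end Pool.Agent.T4h19.DG
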