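import Pool.Agent.W467.FO.F

/-!
# Symmetries of rank two bundles: eigenvalues along a hyperplane and at a point (helper19)
-/

set_option autoImplicit false
set_option maxHeartbeats 400000

open MvPolynomial H960VB H938TB Pool.Agent.W615 Pool.Agent.W467.FO

namespace Pool.Agent.T4h19.EV

variable {n : ℕ} {E : Bundle2 n}

/-- cancel a nonzero homogeneous factor of a section -/
theorem sec_of_mul {d e : ℤ} {q : MvPolynomial (Fin (n + 1)) ℂ} {H : Vec E.a n} (hq : HomZ q e)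
    (hq0 : q ≠ 0) (h : Sec E (e + d) (fun i => q * H i)) : Sec E d H := by
  refine ⟨fun i => ?_, ker_of_mul hq0 h.ker⟩
  by_cases hi : H i = 0
  · rw [hi]
    exact isWeightedHomogeneous_zero _ _ _
  · have h1 := h.hom i
    obtain ⟨a, b, hab, ha, hb⟩ := hom_of_mul _ h1 (mul_ne_zero hq0 hi)
    have h2 : a = ((e, 0) : M) := ha.inj_right hq0 (wh_triv hq)
    have h3 : ((E.β i, (triv E).b i) + ((d, 0) : M) : M) = b := by
      have h4 : b = ((E.β i, (triv E).b i) + ((e + d, 0) : M)) - a := by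
        rw [← hab]; abel
      rw [h4, h2]
      ext <;> simp
      ring
    rw [h3]
    exact hb

/-- generalised eigensections with nonzero wedge product at a point, in a given degree -/
theorem exists_ge_at {T : (Fin (n + 1) → ℂ) →ₗ[ℂ] (Fin (n + 1) → ℂ)} (O : GOp E T)
    (W : Wedge (triv E)) {d : ℤ} {x : Fin (n + 1) → ℂ}
    (h : ∃ G G' : Vec E.a n, Sec E d G ∧ Sec E d G' ∧ eval x (W.wd G G') ≠ 0) :
    ∃ (α β : ℂ) (s t : S0 E d), O.GE d α s ∧ O.GE d β t ∧ eval x (W.wd s t) ≠ 0 := by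
  obtain ⟨G, G', hG, hG', hne⟩ := h
  obtain ⟨r, v, ε, k, hv, hspan⟩ := exists_ge_family (O.lin d)
  by_contra hc
  push Not at hc
  have h1 : ∀ i j, eval x (W.wd (v i) (v j)) = 0 := fun i j =>
    hc (ε i) (ε j) (v i) (v j) ⟨k i, hv i⟩ ⟨k j, hv j⟩
  have h2 : ∀ j, ∀ s : S0 E d, eval x (W.wd s (v j)) = 0 := by
    intro j s
    have hs : s ∈ Submodule.span ℂ (Set.range v) := by rw [hspan]; trivial
    induction hs using Submodule.span_induction with
    | mem y hy => obtain ⟨i, rfl⟩ := hy; exact h1 i j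
    | zero =>
      have : wdB W d d 0 (v j) = 0 := by rw [map_zero, LinearMap.zero_apply]
      rw [wdB_apply] at this
      rw [this, map_zero]
    | add y z _ _ hy hz =>
      have : wdB W d d (y + z) (v j) = wdB W d d y (v j) + wdB W d d z (v j) := by
        rw [map_add, LinearMap.add_apply]
      rw [wdB_apply, wdB_apply, wdB_apply] at this
      rw [this, map_add, hy, hz, add_zero]
    | smul c y _ hy =>
      have : wdB W d d (c • y) (v j) = c • wdB W d d y (v j) := by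
        rw [map_smul, LinearMap.smul_apply]
      rw [wdB_apply, wdB_apply] at this
      rw [this, smul_eval, hy, mul_zero]
  have h3 : ∀ s t : S0 E d, eval x (W.wd s t) = 0 := by
    intro s t
    have ht : t ∈ Submodule.span ℂ (Set.range v) := by rw [hspan]; trivial
    induction ht using Submodule.span_induction with
    | mem y hy => obtain ⟨i, rfl⟩ := hy; exact h2 i s
    | zero =>
      have : wdB W d d s 0 = 0 := by rw [map_zero]
      rw [wdB_apply] at this
      rw [this, map_zero]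
    | add y z _ _ hy hz =>
      have : wdB W d d s (y + z) = wdB W d d s y + wdB W d d s z := by
        rw [map_add]
      rw [wdB_apply, wdB_apply, wdB_apply] at this
      rw [this, map_add, hy, hz, add_zero]
    | smul c y _ hy =>
      have : wdB W d d s (c • y) = c • wdB W d d s y := by
        rw [map_smul]
      rw [wdB_apply, wdB_apply] at this
      rw [this, smul_eval, hy, mul_zero]
  exact hne (h3 ⟨G, hG⟩ ⟨G', hG'⟩)

/-- the diagonal map with the entry `μ` at the place zero and `l` elsewhere -/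
noncomputable def dg (m : ℕ) (l μ : ℂ) : (Fin (m + 1) → ℂ) →ₗ[ℂ] (Fin (m + 1) → ℂ) :=
  LinearMap.pi fun j => (if j = 0 then μ else l) • LinearMap.proj j

theorem dg_apply (m : ℕ) (l μ : ℂ) (x : Fin (m + 1) → ℂ) (j : Fin (m + 1)) :
    dg m l μ x j = (if j = 0 then μ else l) * x j := rfl

/-- the weight of a monomial -/
def wt {m : ℕ} (l μ : ℂ) (u : Fin (m + 1) →₀ ℕ) : ℂ := ∏ j, (if j = 0 then μ else l) ^ u j

theorem wt_eq {m : ℕ} (l μ : ℂ) (u : Fin (m + 1) →₀ ℕ) :
    wt l μ u = μ ^ u 0 * l ^ (∑ j : Fin m, u j.succ) := by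
  unfold wt
  rw [Fin.prod_univ_succ, if_pos rfl]
  congr 1
  rw [← Finset.prod_pow_eq_pow_sum]
  exact Finset.prod_congr rfl fun j _ => by rw [if_neg (Fin.succ_ne_zero j)]

theorem lsub_dg_X (m : ℕ) (l μ : ℂ) (s : Fin (m + 1)) :
    lsub (dg m l μ) (X s) = C (if s = 0 then μ else l) * X s := by
  unfold lsub
  rw [aeval_X, Finset.sum_eq_single s]
  · rw [dg_apply, Pi.single_eq_same, mul_one]
  · intro t _ hts
    rw [dg_apply, Pi.single_eq_of_ne (Ne.symm hts), mul_zero, C_0, zero_mul]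
  · intro h
    exact absurd (Finset.mem_univ _) h

theorem lsub_dg_monomial (m : ℕ) (l μ : ℂ) (u : Fin (m + 1) →₀ ℕ) (a : ℂ) :
    lsub (dg m l μ) (monomial u a) = monomial u (wt l μ u * a) := by
  have h1 : (monomial u a : MvPolynomial (Fin (m + 1)) ℂ) = C a * ∏ j, X j ^ u j := by
    rw [monomial_eq, Finsupp.prod_fintype _ _ (by simp)]
  have h2 : (monomial u (wt l μ u * a) : MvPolynomial (Fin (m + 1)) ℂ) =
      C (wt l μ u * a) * ∏ j, X j ^ u j := by
    rw [monomial_eq, Finsupp.prod_fintype _ _ (by simp)]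
  rw [h2, h1, map_mul, map_prod]
  have h3 : lsub (dg m l μ) (C a) = C a := (lsub (dg m l μ)).commutes a
  rw [h3, C_mul, wt, map_prod, mul_comm (∏ j, C _) (C a), mul_assoc, ← Finset.prod_mul_distrib]
  congr 1
  refine Finset.prod_congr rfl fun j _ => ?_
  rw [map_pow, lsub_dg_X, mul_pow, map_pow]

theorem coeff_lsub_dg (m : ℕ) (l μ : ℂ) (q : MvPolynomial (Fin (m + 1)) ℂ)
    (u : Fin (m + 1) →₀ ℕ) : coeff u (lsub (dg m l μ) q) = wt l μ u * coeff u q := by
  classical
  induction q using MvPolynomial.induction_on' with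
  | monomial v a =>
    rw [lsub_dg_monomial, coeff_monomial, coeff_monomial]
    by_cases h : v = u
    · rw [if_pos h, if_pos h, h]
    · rw [if_neg h, if_neg h, mul_zero]
  | add p q hp hq => rw [map_add, coeff_add, coeff_add, hp, hq, mul_add]

theorem coeff_pow (m : ℕ) (l μ κ c : ℂ) (u : Fin (m + 1) →₀ ℕ) :
    ∀ (K : ℕ) (q : MvPolynomial (Fin (m + 1)) ℂ),
      coeff u (((hM (dg m l μ) κ - c • 1) ^ K) q) = (κ * wt l μ u - c) ^ K * coeff u q := by
  intro K
  induction K with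
  | zero => intro q; rw [pow_zero, pow_zero, one_mul, Module.End.one_apply]
  | succ K ih =>
    intro q
    have h1 : (hM (dg m l μ) κ - c • 1) q = κ • lsub (dg m l μ) q - c • q := rfl
    rw [pow_succ, Module.End.mul_apply, ih, h1, coeff_sub, coeff_smul, coeff_smul, coeff_lsub_dg,
      smul_eq_mul, smul_eq_mul]
    ring

theorem intertwine {m : ℕ} {T : (Fin (n + 1) → ℂ) →ₗ[ℂ] (Fin (n + 1) → ℂ)}
    {S : (Fin (m + 1) → ℂ) →ₗ[ℂ] (Fin (n + 1) → ℂ)} {l μ : ℂ} (hTS : T ∘ₗ S = S ∘ₗ dg m l μ)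
    (κ c : ℂ) : ∀ (K : ℕ) (p : MvPolynomial (Fin (n + 1)) ℂ),
      lsub S (((hM T κ - c • 1) ^ K) p) = ((hM (dg m l μ) κ - c • 1) ^ K) (lsub S p) := by
  intro K
  induction K with
  | zero => intro p; rw [pow_zero, pow_zero, Module.End.one_apply, Module.End.one_apply]
  | succ K ih =>
    intro p
    have h1 : (hM T κ - c • 1) p = κ • lsub T p - c • p := rfl
    have h2 : (hM (dg m l μ) κ - c • 1) (lsub S p) =
      κ • lsub (dg m l μ) (lsub S p) - c • lsub S p := rfl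
    rw [pow_succ, Module.End.mul_apply, ih, h1, pow_succ, Module.End.mul_apply, h2, map_sub,
      map_smul, map_smul, lsub_comp, hTS, ← lsub_comp]

/-- the eigenvalue read off from a monomial of the restriction -/
theorem eig_coeff {m : ℕ} {T : (Fin (n + 1) → ℂ) →ₗ[ℂ] (Fin (n + 1) → ℂ)}
    {S : (Fin (m + 1) → ℂ) →ₗ[ℂ] (Fin (n + 1) → ℂ)} {l μ : ℂ} (hTS : T ∘ₗ S = S ∘ₗ dg m l μ)
    {κ c : ℂ} {K : ℕ} {p : MvPolynomial (Fin (n + 1)) ℂ} (h : ((hM T κ - c • 1) ^ K) p = 0)
    {u : Fin (m + 1) →₀ ℕ} (hu : coeff u (lsub S p) ≠ 0) : c = κ * wt l μ u := by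
  have h1 := intertwine hTS κ c K p
  rw [h, map_zero] at h1
  have h2 := coeff_pow m l μ κ c u K (lsub S p)
  rw [← h1, coeff_zero] at h2
  have h3 := (mul_eq_zero.1 h2.symm).resolve_right hu
  by_cases hK : K = 0
  · rw [hK, pow_zero] at h3
    exact absurd h3 one_ne_zero
  · have h4 := pow_eq_zero_iff hK |>.1 h3
    linear_combination -h4

/-- the degree of a monomial of a homogeneous polynomial -/
theorem deg_of_coeff {m : ℕ} {p : MvPolynomial (Fin (m + 1)) ℂ} {N : ℤ} (hp : HomZ p N)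
    {u : Fin (m + 1) →₀ ℕ} (hu : coeff u p ≠ 0) : (u 0 : ℤ) + ((∑ j : Fin m, u j.succ : ℕ) : ℤ) = N := by
  rcases hp with rfl | ⟨k, hk, h⟩
  · exact absurd (coeff_zero u) hu
  · have h4 := h hu
    rw [Finsupp.weight_apply, Finsupp.sum_fintype _ _ (by simp)] at h4
    rw [← hk, ← h4, Fin.sum_univ_succ]
    simp

/-- the product of eigenvalues -/
theorem prod_eig {m : ℕ} {T : (Fin (n + 1) → ℂ) →ₗ[ℂ] (Fin (n + 1) → ℂ)} (O : GOp E T)
    (W : Wedge (triv E)) {S : (Fin (m + 1) → ℂ) →ₗ[ℂ] (Fin (n + 1) → ℂ)} {l μ : ℂ} (hl : l ≠ 0)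
    (hTS : T ∘ₗ S = S ∘ₗ dg m l μ) {κ : ℂ}
    (hκ : ∀ (a b : ℤ) (s t : Vec E.a n), Sec E a s → Sec E b t →
      W.wd (O.D s) (O.D t) = C κ * lsub T (W.wd s t)) {d e : ℤ} {α β : ℂ} {s : S0 E d}
    {t : S0 E e} (hs : O.GE d α s) (ht : O.GE e β t) {u : Fin (m + 1) →₀ ℕ}
    (hu : coeff u (lsub S (W.wd s t)) ≠ 0) :
    α * β = κ * (μ ^ (u 0) * l ^ (d + e + W.κ.1 - u 0)) := by
  obtain ⟨K, hK⟩ := O.ge_wd W hκ hs ht
  rw [eig_coeff hTS hK hu, wt_eq]
  have h1 := deg_of_coeff (homZ_lsub S (wd_homZ W s.2 t.2)) hu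
  have h2 : (d + e + W.κ.1 - u 0) = ((∑ j : Fin m, u j.succ : ℕ) : ℤ) := by omega
  rw [h2, zpow_natCast]

end Pool.Agent.T4h19.EV
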