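import Pool.Agent.T4h19.EV1

/-!
# Symmetries of rank two bundles: stripped sections on the join of an eigenspace and a point
-/

set_option autoImplicit false
set_option maxHeartbeats 400000

open MvPolynomial H960VB H938TB Pool.Agent.W615 Pool.Agent.W467.FO

namespace Pool.Agent.T4h19.EV

/-- the inclusion of the hyperplane `x_0 = 0` -/
noncomputable def J (m : ℕ) : (Fin (m + 1) → ℂ) →ₗ[ℂ] (Fin (m + 1 + 1) → ℂ) where
  toFun y := Fin.cons 0 y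
  map_add' x y := by
    funext j
    refine Fin.cases ?_ (fun i => ?_) j <;> simp
  map_smul' c x := by
    funext j
    refine Fin.cases ?_ (fun i => ?_) j <;> simp

theorem J_zero (m : ℕ) (y : Fin (m + 1) → ℂ) : J m y 0 = 0 := rfl
theorem J_succ (m : ℕ) (y : Fin (m + 1) → ℂ) (i : Fin (m + 1)) : J m y i.succ = y i := rfl

/-- the projection forgetting `x_0` -/
noncomputable def tl (m : ℕ) : (Fin (m + 1 + 1) → ℂ) →ₗ[ℂ] (Fin (m + 1) → ℂ) :=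
  LinearMap.pi fun j => LinearMap.proj j.succ

theorem J_tl (m : ℕ) : J m ∘ₗ tl m = dg (m + 1) 1 0 := by
  apply LinearMap.ext
  intro x
  funext j
  rw [LinearMap.comp_apply, dg_apply]
  refine Fin.cases ?_ (fun i => ?_) j
  · rw [J_zero, if_pos rfl, zero_mul]
  · rw [J_succ, if_neg (Fin.succ_ne_zero i), one_mul]
    rfl

theorem dvd_of_coeff {m : ℕ} {p : MvPolynomial (Fin (m + 1)) ℂ}
    (h : ∀ u : Fin (m + 1) →₀ ℕ, u 0 = 0 → coeff u p = 0) : X 0 ∣ p := by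
  rw [p.as_sum]
  refine Finset.dvd_sum fun u hu => ?_
  rw [X_dvd_monomial]
  right
  intro h0
  exact mem_support_iff.1 hu (h u h0)

theorem dvd_of_J {m : ℕ} {p : MvPolynomial (Fin (m + 1 + 1)) ℂ} (h : lsub (J m) p = 0) :
    X 0 ∣ p := by
  apply dvd_of_coeff
  intro u hu
  have h1 : lsub (dg (m + 1) 1 0) p = 0 := by
    rw [← J_tl, ← lsub_comp, h, map_zero]
  have h2 := coeff_lsub_dg (m + 1) 1 0 p u
  rw [h1, coeff_zero, wt_eq, hu, pow_zero, one_pow, one_mul, one_mul] at h2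
  exact h2.symm

theorem exists_pt {m : ℕ} {p : MvPolynomial (Fin (m + 1 + 1)) ℂ} (h : ¬ X 0 ∣ p) :
    ∃ v : Fin (m + 1 + 1) → ℂ, v ≠ 0 ∧ v 0 = 0 ∧ eval v p ≠ 0 := by
  have h1 : lsub (J m) p ≠ 0 := fun h0 => h (dvd_of_J h0)
  have h2 : lsub (J m) p * X 0 ≠ 0 := mul_ne_zero h1 (X_ne_zero 0)
  obtain ⟨y, hy⟩ : ∃ y, eval y (lsub (J m) p * X 0) ≠ 0 := by
    by_contra hc
    push Not at hc
    exact h2 (MvPolynomial.funext fun y => by rw [hc, map_zero])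
  rw [map_mul, eval_X, eval_lsub] at hy
  refine ⟨J m y, ?_, J_zero m y, left_ne_zero_of_mul hy⟩
  intro h0
  apply right_ne_zero_of_mul hy
  have := congrFun h0 (Fin.succ 0)
  rw [J_succ] at this
  exact this

theorem not_dvd_of_eval {m : ℕ} {p : MvPolynomial (Fin (m + 1)) ℂ} {v : Fin (m + 1) → ℂ}
    (h0 : v 0 = 0) (h : eval v p ≠ 0) : ¬ X 0 ∣ p := by
  rintro ⟨q, rfl⟩
  rw [map_mul, eval_X, h0, zero_mul] at h
  exact h rfl

theorem exists_mon {m : ℕ} {p : MvPolynomial (Fin (m + 1)) ℂ} (h : ¬ X 0 ∣ p) :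
    ∃ u : Fin (m + 1) →₀ ℕ, u 0 = 0 ∧ coeff u p ≠ 0 := by
  by_contra hc
  push Not at hc
  exact h (dvd_of_coeff hc)

/-- take out the power of `x_0` -/
theorem exists_strip {a m : ℕ} {v : Vec a m} (h : ∃ i, v i ≠ 0) :
    ∃ (k : ℕ) (G : Vec a m), (∀ i, v i = X 0 ^ k * G i) ∧ ∃ i, ¬ X 0 ∣ G i := by
  classical
  have hex : ∃ k : ℕ, ∃ i, ¬ (X 0 : MvPolynomial (Fin (m + 1)) ℂ) ^ k ∣ v i := by
    obtain ⟨i, hi⟩ := h
    have hu : ¬ IsUnit (X 0 : MvPolynomial (Fin (m + 1)) ℂ) :=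
      (X_prime (R := ℂ) (i := (0 : Fin (m + 1)))).not_isUnit
    obtain ⟨k, hk⟩ := FiniteMultiplicity.of_not_isUnit hu hi
    exact ⟨k + 1, i, hk⟩
  set k0 := Nat.find hex with hk0
  have h1 := Nat.find_spec hex
  rw [← hk0] at h1
  have h2 : k0 ≠ 0 := by
    intro h0
    rw [h0] at h1
    obtain ⟨i, hi⟩ := h1
    rw [pow_zero] at hi
    exact hi (one_dvd _)
  obtain ⟨k, hk⟩ := Nat.exists_eq_succ_of_ne_zero h2
  have h3 : ∀ i, (X 0 : MvPolynomial (Fin (m + 1)) ℂ) ^ k ∣ v i := by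
    have := Nat.find_min hex (m := k) (by omega)
    push Not at this
    exact this
  choose G hG using h3
  refine ⟨k, G, hG, ?_⟩
  obtain ⟨i, hi⟩ := h1
  refine ⟨i, fun hd => hi ?_⟩
  obtain ⟨q, hq⟩ := hd
  rw [hk, hG i, hq]
  exact ⟨q, by rw [pow_succ]; ring⟩

/-- restriction of a vector of polynomials, as a vector for the restricted bundle -/
noncomputable def rz {n m : ℕ} {E : Bundle2 n} (S : (Fin (m + 1) → ℂ) →ₗ[ℂ] (Fin (n + 1) → ℂ))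
    (hS : Function.Injective S) (s : Vec E.a n) : Vec (E.pull S hS).a m := rs S s

theorem rz_sec {n m : ℕ} {E : Bundle2 n} (S : (Fin (m + 1) → ℂ) →ₗ[ℂ] (Fin (n + 1) → ℂ))
    (hS : Function.Injective S) {d : ℤ} {s : Vec E.a n} (h : Sec E d s) :
    Sec (E.pull S hS) d (rz S hS s) := rs_sec S hS h

/-- the data: a lift of `T`, the join `S` of the eigenspace of `l` and an eigenvector of `μ` -/
structure Ctx (n m : ℕ) where
  E : Bundle2 n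
  T : (Fin (n + 1) → ℂ) →ₗ[ℂ] (Fin (n + 1) → ℂ)
  O : GOp E T
  W : Wedge (triv E)
  κ : ℂ
  κ0 : κ ≠ 0
  hκ : ∀ (a b : ℤ) (s t : Vec E.a n), Sec E a s → Sec E b t →
    W.wd (O.D s) (O.D t) = C κ * lsub T (W.wd s t)
  S : (Fin (m + 1 + 1) → ℂ) →ₗ[ℂ] (Fin (n + 1) → ℂ)
  hS : Function.Injective S
  l : ℂ
  μ : ℂ
  l0 : l ≠ 0
  μ0 : μ ≠ 0
  hTS : T ∘ₗ S = S ∘ₗ dg (m + 1) l μ
  u : ℂ
  hu : u * u = κ * l ^ W.κ.1
  htyp : ∀ (d : ℤ) (α : ℂ) (s : S0 E d), O.GE d α s → (∃ i, ¬ X 0 ∣ rz S hS s.1 i) →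
    α = u * l ^ d
  W' : Wedge (triv (E.pull S hS))
  hκ' : W'.κ.1 = W.κ.1
  ω : ℂ
  ω0 : ω ≠ 0
  hω : ∀ s t : Vec E.a n, Ker E s → Ker E t →
    W'.wd (rz S hS s) (rz S hS t) = C ω * lsub S (W.wd s t)

variable {n m : ℕ} (c : Ctx n m)

namespace Ctx

/-- a stripped generalised eigensection: `x_0^k G = s|_Λ`, `s` of degree `d` and eigenvalue `α` -/
structure Strip (d : ℤ) (k : ℕ) (α : ℂ) (G : Vec (c.E.pull c.S c.hS).a (m + 1)) : Prop where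
  ex : ∃ s : S0 c.E d, c.O.GE d α s ∧ ∀ i, rz c.S c.hS s.1 i = X 0 ^ k * G i
  nd : ∃ i, ¬ X 0 ∣ G i

theorem Strip.sec {d : ℤ} {k : ℕ} {α : ℂ} {G : Vec (c.E.pull c.S c.hS).a (m + 1)}
    (h : c.Strip d k α G) : Sec (c.E.pull c.S c.hS) (d - k) G := by
  obtain ⟨s, -, hs⟩ := h.ex
  have h1 := rz_sec c.S c.hS s.2
  have h2 : (fun i => (X 0 : MvPolynomial (Fin (m + 1 + 1)) ℂ) ^ k * G i) = rz c.S c.hS s.1 :=
    funext fun i => (hs i).symm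
  have h3 : HomZ ((X 0 : MvPolynomial (Fin (m + 1 + 1)) ℂ) ^ k) (k : ℤ) := by
    right
    refine ⟨k, rfl, ?_⟩
    have := (isHomogeneous_X ℂ (0 : Fin (m + 1 + 1))).pow k
    rwa [one_mul] at this
  refine sec_of_mul h3 (pow_ne_zero _ (X_ne_zero 0)) ?_
  rw [h2]
  have h4 : (k : ℤ) + (d - k) = d := by ring
  rw [h4]
  exact h1

theorem coeff_shift {m : ℕ} (k : ℕ) (p : MvPolynomial (Fin (m + 1)) ℂ) (w : Fin (m + 1) →₀ ℕ) :
    coeff (w + Finsupp.single 0 k) (X 0 ^ k * p) = coeff w p := by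
  rw [mul_comm, X_pow_eq_monomial, coeff_mul_monomial, mul_one]

/-- the product of two stripped sections -/
theorem strip_coeff {d e : ℤ} {k j : ℕ} {α β : ℂ} {G H : Vec (c.E.pull c.S c.hS).a (m + 1)}
    (hG : ∃ s : S0 c.E d, c.O.GE d α s ∧ ∀ i, rz c.S c.hS s.1 i = X 0 ^ k * G i)
    (hH : ∃ s : S0 c.E e, c.O.GE e β s ∧ ∀ i, rz c.S c.hS s.1 i = X 0 ^ j * H i)
    (kG : Ker (c.E.pull c.S c.hS) G) (kH : Ker (c.E.pull c.S c.hS) H)
    {w : Fin (m + 1 + 1) →₀ ℕ} (hw : coeff w (c.W'.wd G H) ≠ 0) :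
    α * β = c.κ * (c.μ ^ (w 0 + (k + j)) *
      c.l ^ (d + e + c.W.κ.1 - ((w 0 + (k + j) : ℕ) : ℤ))) := by
  obtain ⟨s, hs, hs'⟩ := hG
  obtain ⟨t, ht, ht'⟩ := hH
  have h1 : c.W'.wd (rz c.S c.hS s.1) (rz c.S c.hS t.1) = X 0 ^ (k + j) * c.W'.wd G H := by
    rw [wd_of_mul_left c.W' kG (rz_sec c.S c.hS t.2).ker hs',
      wd_of_mul_right c.W' kH kG ht', pow_add]
    ring
  have h2 := c.hω s t s.2.ker t.2.ker
  rw [h1] at h2
  have h3 : coeff (w + Finsupp.single 0 (k + j)) (lsub c.S (c.W.wd s t)) ≠ 0 := by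
    intro h0
    apply hw
    rw [← coeff_shift (k + j), h2, coeff_C_mul, h0, mul_zero]
  have h4 := prod_eig c.O c.W c.l0 c.hTS c.hκ hs ht h3
  have h5 : (w + Finsupp.single 0 (k + j) : Fin (m + 1 + 1) →₀ ℕ) 0 = w 0 + (k + j) := by
    rw [Finsupp.add_apply, Finsupp.single_eq_same]
  rw [h5] at h4
  exact h4

/-- generalised eigensections which generate at a point of the eigenspace of `l` -/
theorem exists_at {v : Fin (m + 1 + 1) → ℂ} (hv : v ≠ 0) (hv0 : v 0 = 0) :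
    ∃ (e : ℤ) (σ τ : Vec (c.E.pull c.S c.hS).a (m + 1)), c.Strip e 0 (c.u * c.l ^ e) σ ∧
      c.Strip e 0 (c.u * c.l ^ e) τ ∧ eval v (c.W'.wd σ τ) ≠ 0 := by
  obtain ⟨e, he⟩ := c.O.exists_ge c.W
  have hSv : c.S v ≠ 0 := fun h0 => hv (c.hS (by rw [h0, map_zero]))
  obtain ⟨α, β, s, t, hs, ht, hne⟩ := he (c.S v) hSv
  have h1 : eval v (c.W'.wd (rz c.S c.hS s.1) (rz c.S c.hS t.1)) ≠ 0 := by
    rw [c.hω s t s.2.ker t.2.ker, map_mul, eval_C, eval_lsub]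
    exact mul_ne_zero c.ω0 hne
  have hli := (c.W'.ind v hv _ _ (rz_sec c.S c.hS s.2).ker (rz_sec c.S c.hS t.2).ker).1 h1
  have key : ∀ G : Vec (c.E.pull c.S c.hS).a (m + 1), evv G v ≠ 0 → ∃ i, ¬ X 0 ∣ G i := by
    intro G hG
    by_contra hc
    push Not at hc
    apply hG
    funext i
    by_contra hi
    exact not_dvd_of_eval hv0 hi (hc i)
  have h2 : ∃ i, ¬ X 0 ∣ rz c.S c.hS s.1 i := key _ (by simpa using hli.ne_zero 0)
  have h3 : ∃ i, ¬ X 0 ∣ rz c.S c.hS t.1 i := key _ (by simpa using hli.ne_zero 1)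
  have h4 := c.htyp e α s hs h2
  have h5 := c.htyp e β t ht h3
  rw [h4] at hs
  rw [h5] at ht
  exact ⟨e, rz c.S c.hS s.1, rz c.S c.hS t.1, ⟨⟨s, hs, fun i => by rw [pow_zero, one_mul]⟩, h2⟩,
    ⟨⟨t, ht, fun i => by rw [pow_zero, one_mul]⟩, h3⟩, h1⟩

/-- the eigenvalue of a stripped section -/
theorem Strip.typ {d : ℤ} {k : ℕ} {α : ℂ} {G : Vec (c.E.pull c.S c.hS).a (m + 1)}
    (h : c.Strip d k α G) : α = c.u * (c.μ ^ k * c.l ^ (d - k)) := by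
  obtain ⟨i, hi⟩ := h.nd
  obtain ⟨v, hv, hv0, hvi⟩ := exists_pt hi
  obtain ⟨e, σ, τ, hσ, hτ, hne⟩ := c.exists_at hv hv0
  have kG := (h.sec c).ker
  have kσ := (hσ.sec c).ker
  have kτ := (hτ.sec c).ker
  have main : ∀ ρ, c.Strip e 0 (c.u * c.l ^ e) ρ → eval v (c.W'.wd G ρ) ≠ 0 →
      α = c.u * (c.μ ^ k * c.l ^ (d - k)) := by
    intro ρ hρ hne'
    obtain ⟨w, hw0, hw⟩ := exists_mon (not_dvd_of_eval hv0 hne')
    have h1 := c.strip_coeff h.ex hρ.ex kG (hρ.sec c).ker hw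
    rw [hw0, zero_add, add_zero] at h1
    have hu0 : c.u ≠ 0 := by
      intro h0
      have h2 := c.hu
      rw [h0, zero_mul] at h2
      exact mul_ne_zero c.κ0 (zpow_ne_zero _ c.l0) h2.symm
    have hle : c.l ^ e ≠ 0 := zpow_ne_zero _ c.l0
    apply mul_right_cancel₀ (mul_ne_zero hu0 hle)
    rw [h1]
    have h3 : c.l ^ (d + e + c.W.κ.1 - (k : ℤ)) = c.l ^ (d - k) * c.l ^ e * c.l ^ c.W.κ.1 := by
      rw [← zpow_add₀ c.l0, ← zpow_add₀ c.l0]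
      congr 1
      ring
    rw [h3]
    linear_combination (-(c.μ ^ k * c.l ^ (d - k) * c.l ^ e)) * c.hu
  by_cases h1 : eval v (c.W'.wd G σ) = 0
  · by_cases h2 : eval v (c.W'.wd G τ) = 0
    · exfalso
      have h3 := congrArg (eval v) (c.W'.three G σ τ kG kσ kτ i)
      rw [map_add, map_sub, map_mul, map_mul, map_mul, h1, h2, zero_mul, zero_mul, sub_zero,
        add_zero, map_zero] at h3
      exact mul_ne_zero hne hvi h3
    · exact main τ hτ h2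
  · exact main σ hσ h1

/-- the wedge product of two stripped sections is invariant -/
theorem Strip.inv {d e : ℤ} {k j : ℕ} {α β : ℂ} {G H : Vec (c.E.pull c.S c.hS).a (m + 1)}
    (hG : c.Strip d k α G) (hH : c.Strip e j β H) {w : Fin (m + 1 + 1) →₀ ℕ}
    (hw : coeff w (c.W'.wd G H) ≠ 0) : (c.μ / c.l) ^ (w 0) = 1 := by
  have h1 := c.strip_coeff hG.ex hH.ex (hG.sec c).ker (hH.sec c).ker hw
  rw [hG.typ c, hH.typ c] at h1
  have h2 : c.l ^ (d + e + c.W.κ.1 - ((w 0 + (k + j) : ℕ) : ℤ)) * c.l ^ (w 0) =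
      c.l ^ (d - k) * c.l ^ (e - j) * c.l ^ c.W.κ.1 := by
    rw [← zpow_natCast c.l (w 0), ← zpow_add₀ c.l0, ← zpow_add₀ c.l0, ← zpow_add₀ c.l0]
    congr 1
    push_cast
    ring
  have h3 : c.κ * c.l ^ c.W.κ.1 * (c.μ ^ k * c.μ ^ j * (c.l ^ (d - k) * c.l ^ (e - j))) ≠ 0 :=
    mul_ne_zero (mul_ne_zero c.κ0 (zpow_ne_zero _ c.l0))
      (mul_ne_zero (mul_ne_zero (pow_ne_zero _ c.μ0) (pow_ne_zero _ c.μ0))
        (mul_ne_zero (zpow_ne_zero _ c.l0) (zpow_ne_zero _ c.l0)))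
  rw [div_pow, div_eq_one_iff_eq (pow_ne_zero _ c.l0)]
  apply mul_left_cancel₀ h3
  have h4 : c.μ ^ (w 0 + (k + j)) = c.μ ^ (w 0) * (c.μ ^ k * c.μ ^ j) := by
    rw [pow_add, pow_add]
  rw [h4] at h1
  have h5 : c.u * (c.μ ^ k * c.l ^ (d - k)) * (c.u * (c.μ ^ j * c.l ^ (e - j))) * c.l ^ (w 0) =
      c.κ * (c.μ ^ (w 0) * (c.μ ^ k * c.μ ^ j) *
        c.l ^ (d + e + c.W.κ.1 - ((w 0 + (k + j) : ℕ) : ℤ))) * c.l ^ (w 0) := by
    rw [h1]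
  have h6 : c.κ * (c.μ ^ (w 0) * (c.μ ^ k * c.μ ^ j) *
      c.l ^ (d + e + c.W.κ.1 - ((w 0 + (k + j) : ℕ) : ℤ))) * c.l ^ (w 0) =
      c.κ * (c.μ ^ (w 0) * (c.μ ^ k * c.μ ^ j)) *
        (c.l ^ (d - k) * c.l ^ (e - j) * c.l ^ c.W.κ.1) := by
    rw [← h2]
    ring
  rw [h6] at h5
  linear_combination -h5 + (c.μ ^ k * c.l ^ (d - k) * (c.μ ^ j * c.l ^ (e - j)) *
    c.l ^ (w 0)) * c.hu

end Ctx

end Pool.Agent.T4h19.EV
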