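import Pool.Agent.T4h19.EV2

/-!
# Symmetries of rank two bundles: the pair of sections at an eigenvector
-/

set_option autoImplicit false
set_option maxHeartbeats 400000

open MvPolynomial H960VB H938TB Pool.Agent.W615 Pool.Agent.W467.FO

namespace Pool.Agent.T4h19.EV

/-- the first unit vector -/
noncomputable def e0 (m : ℕ) : Fin (m + 1) → ℂ := Pi.single 0 1

theorem e0_ne (m : ℕ) : e0 m ≠ 0 := fun h => by
  have := congrFun h 0
  simp [e0] at this

theorem exists_pure {m : ℕ} {p : MvPolynomial (Fin (m + 1)) ℂ} (h : eval (e0 m) p ≠ 0) :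
    ∃ w : Fin (m + 1) →₀ ℕ, (∀ j : Fin m, w j.succ = 0) ∧ coeff w p ≠ 0 := by
  by_contra hc
  push Not at hc
  apply h
  rw [eval_eq']
  refine Finset.sum_eq_zero fun w hw => ?_
  by_cases hw' : ∀ j : Fin m, w j.succ = 0
  · exact absurd (hc w hw') (mem_support_iff.1 hw)
  · push Not at hw'
    obtain ⟨j, hj⟩ := hw'
    rw [Finset.prod_eq_zero (Finset.mem_univ j.succ), mul_zero]
    simp [e0, hj]

variable {n m : ℕ} (c : Ctx n m)

namespace Ctx

/-- stripped sections which generate at a point -/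
theorem data {d : ℤ} {x : Fin (m + 1 + 1) → ℂ} (h : ∃ G G' : Vec c.E.a n, Sec c.E d G ∧
    Sec c.E d G' ∧ eval (c.S x) (c.W.wd G G') ≠ 0) :
    ∃ (k j : ℕ) (α β : ℂ) (G H : Vec (c.E.pull c.S c.hS).a (m + 1)), c.Strip d k α G ∧
      c.Strip d j β H ∧ eval x (c.W'.wd G H) ≠ 0 := by
  obtain ⟨α, β, s, t, hs, ht, hne⟩ := exists_ge_at c.O c.W h
  have h1 : eval x (c.W'.wd (rz c.S c.hS s.1) (rz c.S c.hS t.1)) ≠ 0 := by
    rw [c.hω s t s.2.ker t.2.ker, map_mul, eval_C, eval_lsub]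
    exact mul_ne_zero c.ω0 hne
  have h0 : c.W'.wd (rz c.S c.hS s.1) (rz c.S c.hS t.1) ≠ 0 := fun h0 => h1 (by rw [h0, map_zero])
  have k1 := (rz_sec c.S c.hS s.2).ker
  have k2 := (rz_sec c.S c.hS t.2).ker
  obtain ⟨k, G, hG, hG'⟩ := exists_strip (ne_of_wd_left c.W' k1 k2 h0)
  obtain ⟨j, H, hH, hH'⟩ := exists_strip (ne_of_wd_right c.W' k1 k2 h0)
  have sG : c.Strip d k α G := ⟨⟨s, hs, hG⟩, hG'⟩
  have sH : c.Strip d j β H := ⟨⟨t, ht, hH⟩, hH'⟩
  refine ⟨k, j, α, β, G, H, sG, sH, ?_⟩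
  intro h2
  apply h1
  rw [wd_of_mul_left c.W' (sG.sec c).ker k2 hG,
    wd_of_mul_right c.W' (sH.sec c).ker (sG.sec c).ker hH, map_mul, map_mul, h2, mul_zero, mul_zero]

/-- the degree of the wedge product of the pair -/
theorem degree {d : ℤ} {k j : ℕ} {α β : ℂ} {G H : Vec (c.E.pull c.S c.hS).a (m + 1)}
    (hE : ¬ (c.E.pull c.S c.hS).Splits)
    (sG : c.Strip d k α G) (sH : c.Strip d j β H) (h : eval (e0 (m + 1)) (c.W'.wd G H) ≠ 0) :
    ∃ D : ℕ, 1 ≤ D ∧ (D : ℤ) = 2 * d + c.W.κ.1 - k - j ∧ (c.μ / c.l) ^ D = 1 ∧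
      (c.W'.wd G H).IsHomogeneous D := by
  obtain ⟨w, hw, hw'⟩ := exists_pure h
  have h1 := sG.inv c sH hw'
  have h2 := wd_homZ c.W' (sG.sec c) (sH.sec c)
  have h3 := deg_of_coeff h2 hw'
  have h4 : ∑ j : Fin (m + 1), w j.succ = 0 := Finset.sum_eq_zero fun j _ => hw j
  rw [h4, c.hκ', Nat.cast_zero, add_zero] at h3
  have h5 : (c.W'.wd G H).IsHomogeneous (w 0) := by
    rcases h2 with h2 | ⟨D, hD, h2⟩
    · exact absurd (by rw [h2, map_zero]) h
    · rw [c.hκ', ← h3] at hD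
      have : D = w 0 := by exact_mod_cast hD
      rw [← this]
      exact h2
  refine ⟨w 0, ?_, by omega, h1, h5⟩
  rcases Nat.eq_zero_or_pos (w 0) with h0 | h0
  · exfalso
    apply hE
    rw [h0] at h5
    refine splits_of_no_zero c.W' (by omega) (sG.sec c) (sH.sec c) fun x _ => ?_
    have h6 : c.W'.wd G H = C (coeff 0 (c.W'.wd G H)) :=
      totalDegree_eq_zero_iff_eq_C.1 (Nat.le_zero.1 h5.totalDegree_le)
    rw [h6, eval_C] at h ⊢
    exact h
  · exact h0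

end Ctx

end Pool.Agent.T4h19.EV
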