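import Pool.Agent.T4h19.EV3
import Pool.Agent.H952R2.Sextic.CommonZero
import Pool.Agent.W615.LOne

/-!
# Symmetries of rank two bundles: the factor two
-/

set_option autoImplicit false
set_option maxHeartbeats 400000

open MvPolynomial H960VB H938TB Pool.Agent.W615 Pool.Agent.W467.FO

namespace Pool.Agent.T4h19.EV

/-- a bundle with a nowhere vanishing section splits -/
theorem splits_of_nz {m : ℕ} (hm : 2 ≤ m) {E : Bundle2 m} {d : ℤ} {s : Vec E.a m}
    (hs : Sec E d s) (h : ∀ x : Fin (m + 1) → ℂ, x ≠ 0 → evv s x ≠ 0) : E.Splits := by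
  have hf : Function.Injective (Fin.castLE (by omega : 2 + 1 ≤ m + 1)) := Fin.castLE_injective _
  set T : (Fin (2 + 1) → ℂ) →ₗ[ℂ] (Fin (m + 1) → ℂ) :=
    cInc (Fin.castLE (by omega : 2 + 1 ≤ m + 1)) with hTd
  have hT : Function.Injective T := cInc_injective _ hf
  refine Bundle2.splits_of_pull (m - 2) 2 m le_rfl (by omega) E T hT ?_
  refine splits_of_nowhere_zero (D := triv (E.pull T hT)) (rz_sec T hT hs) ?_
  intro x hx h0
  apply h (T x) (fun h1 => hx (hT (by rw [h1, map_zero])))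
  rw [← evv_lsub]
  exact h0

/-- the polynomial in `z^N` -/
theorem hat {M N : ℕ} (hN : 1 ≤ N) (p : MvPolynomial (Fin (M + 1)) ℂ)
    (hp : ∀ w, coeff w p ≠ 0 → N ∣ w 0) (v : Fin M → ℂ) :
    ∃ q : Polynomial ℂ, ∀ z : ℂ, q.eval (z ^ N) = eval (Fin.cons z v : Fin (M + 1) → ℂ) p := by
  refine ⟨∑ w ∈ p.support, Polynomial.C (coeff w p * ∏ j, v j ^ w j.succ) *
    Polynomial.X ^ (w 0 / N), fun z => ?_⟩
  rw [Polynomial.eval_finsetSum, eval_eq']
  refine Finset.sum_congr rfl fun w hw => ?_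
  obtain ⟨k, hk⟩ := hp w (mem_support_iff.1 hw)
  rw [Polynomial.eval_mul, Polynomial.eval_C, Polynomial.eval_pow, Polynomial.eval_X,
    Fin.prod_univ_succ, Fin.cons_zero, hk, Nat.mul_div_cancel_left _ (by omega), ← pow_mul]
  simp only [Fin.cons_succ]
  ring

/-- substitution of `z^N = g` -/
noncomputable def phiP {M : ℕ} (N : ℕ) (g : MvPolynomial (Fin M) ℂ)
    (p : MvPolynomial (Fin (M + 1)) ℂ) : MvPolynomial (Fin M) ℂ :=
  ∑ w ∈ p.support, C (coeff w p) * (g ^ (w 0 / N) * ∏ j, X j ^ w j.succ)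

theorem phiP_eval {M N : ℕ} (hN : 1 ≤ N) (g : MvPolynomial (Fin M) ℂ)
    (p : MvPolynomial (Fin (M + 1)) ℂ) (hp : ∀ w, coeff w p ≠ 0 → N ∣ w 0) {z : ℂ}
    {v : Fin M → ℂ} (hz : z ^ N = eval v g) :
    eval v (phiP N g p) = eval (Fin.cons z v : Fin (M + 1) → ℂ) p := by
  unfold phiP
  rw [map_sum, eval_eq']
  refine Finset.sum_congr rfl fun w hw => ?_
  obtain ⟨k, hk⟩ := hp w (mem_support_iff.1 hw)
  rw [map_mul, map_mul, map_pow, map_prod, eval_C, ← hz, Fin.prod_univ_succ, Fin.cons_zero, hk,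
    Nat.mul_div_cancel_left _ (by omega), ← pow_mul]
  simp only [Fin.cons_succ, map_pow, eval_X]

theorem phiP_hom {M N : ℕ} (hN : 1 ≤ N) {g : MvPolynomial (Fin M) ℂ} (hg : g.IsHomogeneous N)
    {p : MvPolynomial (Fin (M + 1)) ℂ} (hp : ∀ w, coeff w p ≠ 0 → N ∣ w 0) {D : ℤ}
    (hD : HomZ p D) : HomZ (phiP N g p) D := by
  rcases hD with rfl | ⟨k, hk, h⟩
  · left
    unfold phiP
    rw [support_zero, Finset.sum_empty]
  · right
    refine ⟨k, hk, ?_⟩
    unfold phiP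
    apply IsHomogeneous.sum
    intro w hw
    have hw' := mem_support_iff.1 hw
    obtain ⟨q, hq⟩ := hp w hw'
    have h4 := h hw'
    rw [Finsupp.weight_apply, Finsupp.sum_fintype _ _ (by simp), Fin.sum_univ_succ] at h4
    have h5 : N * (w 0 / N) + ∑ j : Fin M, w j.succ = k := by
      rw [hq, Nat.mul_div_cancel_left _ (by omega), ← hq]
      simpa using h4
    have h6 : (∏ j : Fin M, (X j : MvPolynomial (Fin M) ℂ) ^ w j.succ).IsHomogeneous
        (∑ j : Fin M, w j.succ) := by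
      apply IsHomogeneous.prod
      intro j _
      have := (isHomogeneous_X ℂ j).pow (w j.succ)
      rwa [one_mul] at this
    have h7 := (isHomogeneous_C (Fin M) (coeff w p)).mul ((hg.pow (w 0 / N)).mul h6)
    rw [zero_add, h5] at h7
    exact h7

/-- a homogeneous polynomial of degree `N` whose monomials have exponents `0`, `N` in `x_0` -/
theorem eval_form {M N : ℕ} (hN : 1 ≤ N) {p : MvPolynomial (Fin (M + 1)) ℂ}
    (h : p.IsHomogeneous N) (hp : ∀ w, coeff w p ≠ 0 → N ∣ w 0) (z : ℂ) (v : Fin M → ℂ) :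
    eval (Fin.cons z v : Fin (M + 1) → ℂ) p = eval (e0 M) p * z ^ N +
      eval (Fin.cons 0 v : Fin (M + 1) → ℂ) p := by
  rw [eval_eq', eval_eq', eval_eq', Finset.sum_mul, ← Finset.sum_add_distrib]
  refine Finset.sum_congr rfl fun w hw => ?_
  have hw' := mem_support_iff.1 hw
  have h4 := h hw'
  rw [Finsupp.weight_apply, Finsupp.sum_fintype _ _ (by simp), Fin.sum_univ_succ] at h4
  have h5 : w 0 + ∑ j : Fin M, w j.succ = N := by simpa using h4
  rw [Fin.prod_univ_succ, Fin.prod_univ_succ, Fin.prod_univ_succ]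
  simp only [Fin.cons_zero, Fin.cons_succ, e0, Pi.single_eq_same,
    Pi.single_eq_of_ne (Fin.succ_ne_zero _), one_pow, one_mul]
  obtain ⟨q, hq⟩ := hp w hw'
  rcases Nat.eq_zero_or_pos q with h0 | h0
  · rw [h0, mul_zero] at hq
    rw [hq, zero_add] at h5
    rw [hq, pow_zero, pow_zero]
    have h6 : ∏ j : Fin M, (0 : ℂ) ^ w j.succ = 0 := by
      obtain ⟨j, hj⟩ : ∃ j : Fin M, w j.succ ≠ 0 := by
        by_contra hc
        push Not at hc
        rw [Finset.sum_eq_zero fun j _ => hc j] at h5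
        omega
      exact Finset.prod_eq_zero (Finset.mem_univ j) (zero_pow hj)
    rw [h6]
    ring
  · have h7 : w 0 = N := by
      have h8 := Nat.le_mul_of_pos_right N h0
      rw [← hq] at h8
      omega
    rw [h7] at h5
    have h8 : ∀ j : Fin M, w j.succ = 0 := by
      intro j
      have h9 : w j.succ ≤ ∑ j : Fin M, w j.succ := Finset.single_le_sum
        (f := fun j : Fin M => w j.succ) (fun _ _ => Nat.zero_le _) (Finset.mem_univ j)
      omega
    rw [h7]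
    simp only [h8, pow_zero, Finset.prod_const_one]
    rw [zero_pow (by omega : N ≠ 0)]
    ring

theorem cons_eta {M : ℕ} (x : Fin (M + 1) → ℂ) :
    (Fin.cons (x 0) (fun j => x j.succ) : Fin (M + 1) → ℂ) = x := by
  funext j
  refine Fin.cases ?_ (fun i => ?_) j <;> simp

variable {n m : ℕ} (c : Ctx n m)

namespace Ctx

/-- stripped sections generate everywhere -/
theorem exists_any {x : Fin (m + 1 + 1) → ℂ} (hx : x ≠ 0) :
    ∃ (d : ℤ) (k j : ℕ) (α β : ℂ) (σ τ : Vec (c.E.pull c.S c.hS).a (m + 1)),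
      c.Strip d k α σ ∧ c.Strip d j β τ ∧ eval x (c.W'.wd σ τ) ≠ 0 := by
  obtain ⟨d, hd⟩ := exists_deg c.W
  have hSx : c.S x ≠ 0 := fun h0 => hx (c.hS (by rw [h0, map_zero]))
  obtain ⟨k, j, α, β, σ, τ, h⟩ := c.data (hd (c.S x) hSx)
  exact ⟨d, k, j, α, β, σ, τ, h⟩

theorem wd_zero_left {G K : Vec (c.E.pull c.S c.hS).a (m + 1)}
    (hG : Ker (c.E.pull c.S c.hS) G) (hK : Ker (c.E.pull c.S c.hS) K)
    {x : Fin (m + 1 + 1) → ℂ} (hx : x ≠ 0) (h : evv G x = 0) : eval x (c.W'.wd G K) = 0 := by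
  by_contra hc
  have := (c.W'.ind x hx G K hG hK).1 hc
  exact this.ne_zero 0 h

/-- zeros of `G` from its products with the stripped sections -/
theorem zero_of {G : Vec (c.E.pull c.S c.hS).a (m + 1)} (hG : Ker (c.E.pull c.S c.hS) G)
    {x : Fin (m + 1 + 1) → ℂ} (hx : x ≠ 0)
    (h : ∀ (d : ℤ) (k : ℕ) (α : ℂ) σ, c.Strip d k α σ → eval x (c.W'.wd G σ) = 0) :
    evv G x = 0 := by
  obtain ⟨d, k, j, α, β, σ, τ, hσ, hτ, hne⟩ := c.exists_any hx
  funext i
  have h3 := congrArg (eval x) (c.W'.three G σ τ hG (hσ.sec c).ker (hτ.sec c).ker i)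
  rw [map_add, map_sub, map_mul, map_mul, map_mul, h _ _ _ _ hσ, h _ _ _ _ hτ, zero_mul,
    zero_mul, sub_zero, add_zero, map_zero] at h3
  exact (mul_eq_zero.1 h3).resolve_left hne

/-- the pair has no common zeros -/
theorem nocommon {N : ℕ} (hN : 1 ≤ N) (hρ : ∀ k : ℕ, (c.μ / c.l) ^ k = 1 → N ∣ k)
    {d e : ℤ} {k j : ℕ} {α β : ℂ} {G H : Vec (c.E.pull c.S c.hS).a (m + 1)}
    (sG : c.Strip d k α G) (sH : c.Strip e j β H) (hP : (c.W'.wd G H).IsHomogeneous N)
    (he : eval (e0 (m + 1)) (c.W'.wd G H) ≠ 0) {x : Fin (m + 1 + 1) → ℂ} (hx : x ≠ 0)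
    (hG : evv G x = 0) (hH : evv H x = 0) : False := by
  obtain ⟨d', k', j', α', β', σ, τ, hσ, hτ, hne⟩ := c.exists_any hx
  have kG := (sG.sec c).ker
  have kH := (sH.sec c).ker
  have kσ := (hσ.sec c).ker
  have kτ := (hτ.sec c).ker
  set v : Fin (m + 1) → ℂ := fun j => x j.succ with hv
  have hxv : (Fin.cons (x 0) v : Fin (m + 1 + 1) → ℂ) = x := cons_eta x
  obtain ⟨q, hq⟩ := hat hN (c.W'.wd σ τ) (fun w hw => hρ _ (hσ.inv c hτ hw)) v
  obtain ⟨g1, hg1⟩ := hat hN (c.W'.wd G σ) (fun w hw => hρ _ (sG.inv c hσ hw)) v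
  obtain ⟨g2, hg2⟩ := hat hN (c.W'.wd G τ) (fun w hw => hρ _ (sG.inv c hτ hw)) v
  obtain ⟨h1, hh1⟩ := hat hN (c.W'.wd H σ) (fun w hw => hρ _ (sH.inv c hσ hw)) v
  obtain ⟨h2, hh2⟩ := hat hN (c.W'.wd H τ) (fun w hw => hρ _ (sH.inv c hτ hw)) v
  have hform := eval_form hN hP (fun w hw => hρ _ (sG.inv c sH hw))
  set a := eval (e0 (m + 1)) (c.W'.wd G H) with ha
  set f := eval (Fin.cons 0 v : Fin (m + 1 + 1) → ℂ) (c.W'.wd G H) with hf
  have hid : (Polynomial.C a * Polynomial.X + Polynomial.C f) * q = g1 * h2 - g2 * h1 := by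
    apply Polynomial.funext
    intro y
    obtain ⟨z, rfl⟩ := IsAlgClosed.exists_pow_nat_eq y (by omega : 0 < N)
    have h4 := congrArg (eval (Fin.cons z v : Fin (m + 1 + 1) → ℂ))
      (c.W'.four G H σ τ kG kH kσ kτ)
    rw [map_add, map_sub, map_mul, map_mul, map_mul, map_zero, hform z v] at h4
    rw [Polynomial.eval_mul, Polynomial.eval_add, Polynomial.eval_mul, Polynomial.eval_C,
      Polynomial.eval_X, Polynomial.eval_C, Polynomial.eval_sub, Polynomial.eval_mul,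
      Polynomial.eval_mul, hq, hg1, hg2, hh1, hh2]
    linear_combination h4
  have hd := congrArg (fun r => (Polynomial.derivative r).eval (x 0 ^ N)) hid
  simp only [Polynomial.derivative_mul, Polynomial.derivative_add, Polynomial.derivative_sub,
    Polynomial.derivative_C, Polynomial.derivative_X, Polynomial.eval_add, Polynomial.eval_mul,
    Polynomial.eval_sub, Polynomial.eval_C, Polynomial.eval_X, Polynomial.eval_zero,
    Polynomial.eval_one, zero_mul, mul_one, zero_add, add_zero] at hd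
  have e1 := c.wd_zero_left kG kσ hx hG
  have e2 := c.wd_zero_left kG kτ hx hG
  have e3 := c.wd_zero_left kH kσ hx hH
  have e4 := c.wd_zero_left kH kτ hx hH
  have e5 := c.wd_zero_left kG kH hx hG
  have e6 := hform (x 0) v
  rw [hxv] at e6
  rw [e5] at e6
  rw [hg1, hg2, hh1, hh2, hq, hxv, e1, e2, e3, e4, ← e6] at hd
  have h9 : a * eval x (c.W'.wd σ τ) = 0 := by linear_combination hd
  exact mul_ne_zero he hne h9

end Ctx

end Pool.Agent.T4h19.EV
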