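import Pool.Agent.T4h19.EV4

/-!
# Symmetries of rank two bundles: the order of the quotient of two eigenvalues
-/

set_option autoImplicit false
set_option maxHeartbeats 400000

open MvPolynomial H960VB H938TB Pool.Agent.W615 Pool.Agent.W467.FO

namespace Pool.Agent.T4h19.EV

/-- a homogeneous polynomial which does not vanish at the origin is constant -/
theorem const_of_eval {M : ℕ} {p q r : MvPolynomial (Fin (M + 1)) ℂ} {D : ℤ} (hr : HomZ r D)
    (hr0 : r ≠ 0) (h : q * p = r) (h0 : eval 0 p ≠ 0) : ∃ t : ℂ, t ≠ 0 ∧ p = C t := by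
  obtain ⟨a, b, -, -, hb⟩ := hom_of_mul (tw (0 : Fin (M + 1) → ℤ × ℤ)) (f := q) (g := p)
    (τ := ((D, 0) : H938TB.M)) (by rw [h]; exact wh_triv hr) (by rw [h]; exact hr0)
  have hp0 : p ≠ 0 := by
    rintro rfl
    exact h0 (map_zero _)
  have h1 : coeff 0 p ≠ 0 := by
    have h2 : eval 0 p = coeff 0 p := by
      rw [MvPolynomial.eval_zero, constantCoeff_eq]
    rw [← h2]
    exact h0
  have h2 := hb h1
  rw [map_zero] at h2
  exact const_of_degree_zero hb hp0 (by rw [← h2]; rfl)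

variable {n m : ℕ} (c : Ctx n m)

namespace Ctx

/-- one of the two sections has no zeros -/
theorem nowhere {N : ℕ} (hm : 2 ≤ m) (hN : 1 ≤ N)
    (hρ : ∀ k : ℕ, (c.μ / c.l) ^ k = 1 → N ∣ k)
    {d e : ℤ} {k j : ℕ} {α β : ℂ} {G H : Vec (c.E.pull c.S c.hS).a (m + 1)}
    (sG : c.Strip d k α G) (sH : c.Strip e j β H) (hP : (c.W'.wd G H).IsHomogeneous N)
    (he : eval (e0 (m + 1)) (c.W'.wd G H) ≠ 0) :
    (∀ x : Fin (m + 1 + 1) → ℂ, x ≠ 0 → evv G x ≠ 0) ∨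
      (∀ x : Fin (m + 1 + 1) → ℂ, x ≠ 0 → evv H x ≠ 0) := by
  have kG := (sG.sec c).ker
  have kH := (sH.sec c).ker
  have nc : ∀ x : Fin (m + 1 + 1) → ℂ, x ≠ 0 → evv G x = 0 → evv H x = 0 → False :=
    fun x hx h1 h2 => c.nocommon hN hρ sG sH hP he hx h1 h2
  have hform := eval_form hN hP (fun w hw => hρ _ (sG.inv c sH hw))
  set a := eval (e0 (m + 1)) (c.W'.wd G H) with ha
  obtain ⟨g, hg⟩ : ∃ g, g = C (-a⁻¹) * lsub (J m) (c.W'.wd G H) := ⟨_, rfl⟩
  have hgh : g.IsHomogeneous N := by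
    rw [hg]
    have h1 : HomZ (lsub (J m) (c.W'.wd G H)) (N : ℤ) :=
      homZ_lsub (J m) (Or.inr ⟨N, rfl, hP⟩)
    have h2 : (lsub (J m) (c.W'.wd G H)).IsHomogeneous N := by
      rcases h1 with h1 | ⟨k', hk', h1⟩
      · rw [h1]; exact isHomogeneous_zero _ _ _
      · have : k' = N := by exact_mod_cast hk'
        rw [← this]
        exact h1
    have := (isHomogeneous_C (Fin (m + 1)) (-a⁻¹)).mul h2
    rwa [zero_add] at this
  have hgv : ∀ v, eval v g = -a⁻¹ * eval (Fin.cons 0 v : Fin (m + 1 + 1) → ℂ) (c.W'.wd G H) := by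
    intro v
    rw [hg, map_mul, eval_C, eval_lsub]
    rfl
  have hon : ∀ (z : ℂ) v, z ^ N = eval v g →
      eval (Fin.cons z v : Fin (m + 1 + 1) → ℂ) (c.W'.wd G H) = 0 := by
    intro z v h
    rw [hform, h, hgv]
    field_simp
    ring
  have hback : ∀ x : Fin (m + 1 + 1) → ℂ, eval x (c.W'.wd G H) = 0 →
      (x 0) ^ N = eval (fun j => x j.succ) g := by
    intro x h
    have h1 := hform (x 0) (fun j => x j.succ)
    rw [cons_eta, h] at h1
    rw [hgv]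
    field_simp
    linear_combination -h1
  have iG : ∀ (d : ℤ) (k : ℕ) (α : ℂ) σ, c.Strip d k α σ →
      ∀ w, coeff w (c.W'.wd G σ) ≠ 0 → N ∣ w 0 := fun d k α σ hσ w hw => hρ _ (sG.inv c hσ hw)
  have iH : ∀ (d : ℤ) (k : ℕ) (α : ℂ) σ, c.Strip d k α σ →
      ∀ w, coeff w (c.W'.wd H σ) ≠ 0 → N ∣ w 0 := fun d k α σ hσ w hw => hρ _ (sH.inv c hσ hw)
  -- the restricted products
  obtain ⟨F, hF⟩ : ∃ F : Vec (c.E.pull c.S c.hS).a (m + 1) → MvPolynomial (Fin (m + 1)) ℂ,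
    F = fun σ => phiP N g (c.W'.wd G σ) := ⟨_, rfl⟩
  obtain ⟨Fh, hFh⟩ : ∃ Fh : Vec (c.E.pull c.S c.hS).a (m + 1) → MvPolynomial (Fin (m + 1)) ℂ,
    Fh = fun σ => phiP N g (c.W'.wd H σ) := ⟨_, rfl⟩
  have evF : ∀ (d : ℤ) (k : ℕ) (α : ℂ) σ, c.Strip d k α σ → ∀ (z : ℂ) v, z ^ N = eval v g →
      eval v (F σ) = eval (Fin.cons z v : Fin (m + 1 + 1) → ℂ) (c.W'.wd G σ) := by
    intro d k α σ hσ z v h
    rw [hF]
    exact phiP_eval hN g _ (iG d k α σ hσ) h
  have evH : ∀ (d : ℤ) (k : ℕ) (α : ℂ) σ, c.Strip d k α σ → ∀ (z : ℂ) v, z ^ N = eval v g →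
      eval v (Fh σ) = eval (Fin.cons z v : Fin (m + 1 + 1) → ℂ) (c.W'.wd H σ) := by
    intro d k α σ hσ z v h
    rw [hFh]
    exact phiP_eval hN g _ (iH d k α σ hσ) h
  have root : ∀ v, ∃ z : ℂ, z ^ N = eval v g := fun v =>
    IsAlgClosed.exists_pow_nat_eq _ (by omega : 0 < N)
  have rel : ∀ (d : ℤ) (k : ℕ) (α : ℂ) σ (d' : ℤ) (k' : ℕ) (α' : ℂ) τ, c.Strip d k α σ →
      c.Strip d' k' α' τ → F σ * Fh τ = F τ * Fh σ := by
    intro d k α σ d' k' α' τ hσ hτ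
    apply MvPolynomial.funext
    intro v
    obtain ⟨z, hz⟩ := root v
    rw [map_mul, map_mul, evF _ _ _ _ hσ z v hz, evF _ _ _ _ hτ z v hz, evH _ _ _ _ hσ z v hz,
      evH _ _ _ _ hτ z v hz]
    have h4 := congrArg (eval (Fin.cons z v : Fin (m + 1 + 1) → ℂ))
      (c.W'.four G H σ τ kG kH (hσ.sec c).ker (hτ.sec c).ker)
    rw [map_add, map_sub, map_mul, map_mul, map_mul, map_zero, hon z v hz] at h4
    linear_combination -h4
  -- zeros of `G` and `H` on the divisor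
  have zG : ∀ x : Fin (m + 1 + 1) → ℂ, x ≠ 0 → eval x (c.W'.wd G H) = 0 →
      (∀ (d : ℤ) (k : ℕ) (α : ℂ) σ, c.Strip d k α σ → eval (fun j => x j.succ) (F σ) = 0) →
      evv G x = 0 := by
    intro x hx h1 h2
    refine c.zero_of kG hx fun d k α σ hσ => ?_
    have h3 := evF d k α σ hσ (x 0) (fun j => x j.succ) (hback x h1)
    rw [cons_eta] at h3
    rw [← h3]
    exact h2 d k α σ hσ
  have zH : ∀ x : Fin (m + 1 + 1) → ℂ, x ≠ 0 → eval x (c.W'.wd G H) = 0 →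
      (∀ (d : ℤ) (k : ℕ) (α : ℂ) σ, c.Strip d k α σ → eval (fun j => x j.succ) (Fh σ) = 0) →
      evv H x = 0 := by
    intro x hx h1 h2
    refine c.zero_of kH hx fun d k α σ hσ => ?_
    have h3 := evH d k α σ hσ (x 0) (fun j => x j.succ) (hback x h1)
    rw [cons_eta] at h3
    rw [← h3]
    exact h2 d k α σ hσ
  have pG : ∀ x : Fin (m + 1 + 1) → ℂ, x ≠ 0 → evv G x = 0 → eval x (c.W'.wd G H) = 0 ∧
      ∀ (d : ℤ) (k : ℕ) (α : ℂ) σ, c.Strip d k α σ → eval (fun j => x j.succ) (F σ) = 0 := by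
    intro x hx h
    have h1 := c.wd_zero_left kG kH hx h
    refine ⟨h1, fun d k α σ hσ => ?_⟩
    have h3 := evF d k α σ hσ (x 0) (fun j => x j.succ) (hback x h1)
    rw [cons_eta] at h3
    rw [h3]
    exact c.wd_zero_left kG (hσ.sec c).ker hx h
  have pH : ∀ x : Fin (m + 1 + 1) → ℂ, x ≠ 0 → evv H x = 0 → eval x (c.W'.wd G H) = 0 ∧
      ∀ (d : ℤ) (k : ℕ) (α : ℂ) σ, c.Strip d k α σ → eval (fun j => x j.succ) (Fh σ) = 0 := by
    intro x hx h
    have h1 : eval x (c.W'.wd G H) = 0 := by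
      rw [c.W'.anti G H kG kH, map_neg, c.wd_zero_left kH kG hx h, neg_zero]
    refine ⟨h1, fun d k α σ hσ => ?_⟩
    have h3 := evH d k α σ hσ (x 0) (fun j => x j.succ) (hback x h1)
    rw [cons_eta] at h3
    rw [h3]
    exact c.wd_zero_left kH (hσ.sec c).ker hx h
  have consne : ∀ (z : ℂ) (v : Fin (m + 1) → ℂ), v ≠ 0 →
      (Fin.cons z v : Fin (m + 1 + 1) → ℂ) ≠ 0 := by
    intro z v hv h0
    apply hv
    funext i
    have := congrFun h0 i.succ
    rwa [Fin.cons_succ] at this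
  -- a strip with a nonzero product
  obtain ⟨d₀, k₀, α₀, σ₀, hσ₀, hne₀⟩ : ∃ (d : ℤ) (k : ℕ) (α : ℂ) (σ : _), c.Strip d k α σ ∧
      (F σ ≠ 0 ∨ Fh σ ≠ 0) := by
    by_contra hc
    push Not at hc
    obtain ⟨z, hz⟩ := root (fun _ => 1)
    have hx := consne z (fun _ => 1) (fun h => by simpa using congrFun h 0)
    have hP0 := hon z _ hz
    refine nc _ hx (zG _ hx hP0 fun d k α σ hσ => ?_) (zH _ hx hP0 fun d k α σ hσ => ?_)
    · rw [(hc d k α σ hσ).1, map_zero]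
    · rw [(hc d k α σ hσ).2, map_zero]
  by_cases hF0 : F σ₀ = 0
  · -- all the `F` vanish
    right
    intro x hx h
    have hH0 := hne₀.resolve_left (fun h => h hF0)
    obtain ⟨h1, -⟩ := pH x hx h
    refine nc x hx (zG x hx h1 fun d k α σ hσ => ?_) h
    have h2 := rel _ _ _ _ _ _ _ _ hσ₀ hσ
    rw [hF0, zero_mul] at h2
    rw [(mul_eq_zero.1 h2.symm).resolve_right hH0, map_zero]
  by_cases hH0 : Fh σ₀ = 0
  · left
    intro x hx h
    obtain ⟨h1, -⟩ := pG x hx h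
    refine nc x hx h (zH x hx h1 fun d k α σ hσ => ?_)
    have h2 := rel _ _ _ _ _ _ _ _ hσ₀ hσ
    rw [hH0, mul_zero] at h2
    rw [(mul_eq_zero.1 h2).resolve_left hF0, map_zero]
  obtain ⟨a', b', g', hrel, h1, h2⟩ :=
    UniqueFactorizationMonoid.exists_reduced_factors (F σ₀) hF0 (Fh σ₀)
  have hg' : g' ≠ 0 := by
    rintro rfl
    rw [zero_mul] at h1
    exact hF0 h1.symm
  have cross : ∀ (d : ℤ) (k : ℕ) (α : ℂ) σ, c.Strip d k α σ → F σ * b' = Fh σ * a' := by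
    intro d k α σ hσ
    have h3 := rel _ _ _ _ _ _ _ _ hσ₀ hσ
    rw [← h1, ← h2] at h3
    apply mul_left_cancel₀ hg'
    linear_combination -h3
  have homF : HomZ (F σ₀) ((d - k) + (d₀ - k₀) + c.W'.κ.1) := by
    rw [hF]
    exact phiP_hom hN hgh (iG _ _ _ _ hσ₀) (wd_homZ c.W' (sG.sec c) (hσ₀.sec c))
  have homH : HomZ (Fh σ₀) ((e - j) + (d₀ - k₀) + c.W'.κ.1) := by
    rw [hFh]
    exact phiP_hom hN hgh (iH _ _ _ _ hσ₀) (wd_homZ c.W' (sH.sec c) (hσ₀.sec c))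
  by_cases ha0 : eval 0 a' = 0
  · by_cases hb0 : eval 0 b' = 0
    · exfalso
      obtain ⟨v, hv, hv'⟩ := Pool.Agent.H952R2.Sextic.exists_common_zero
        (ι := Fin (m + 1)) (κ := Fin 2) (by simp; omega) ![a', b'] (by
          intro i
          fin_cases i
          · exact ha0
          · exact hb0)
      have va : eval v a' = 0 := hv' 0
      have vb : eval v b' = 0 := hv' 1
      obtain ⟨z, hz⟩ := root v
      have hx := consne z v hv
      have hP0 := hon z v hz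
      refine nc _ hx (zG _ hx hP0 fun d k α σ hσ => ?_) (zH _ hx hP0 fun d k α σ hσ => ?_)
      · have h3 : a' ∣ F σ := hrel.dvd_of_dvd_mul_right ⟨Fh σ, by rw [cross _ _ _ _ hσ]; ring⟩
        obtain ⟨q, hq⟩ := h3
        have h4 : (fun j : Fin (m + 1) => (Fin.cons z v : Fin (m + 1 + 1) → ℂ) j.succ) = v := by
          funext i
          rw [Fin.cons_succ]
        rw [h4, hq, map_mul, va, zero_mul]
      · have h3 : b' ∣ Fh σ :=
          hrel.symm.dvd_of_dvd_mul_right ⟨F σ, by rw [← cross _ _ _ _ hσ]; ring⟩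
        obtain ⟨q, hq⟩ := h3
        have h4 : (fun j : Fin (m + 1) => (Fin.cons z v : Fin (m + 1 + 1) → ℂ) j.succ) = v := by
          funext i
          rw [Fin.cons_succ]
        rw [h4, hq, map_mul, vb, zero_mul]
    · right
      obtain ⟨t, ht, rfl⟩ := const_of_eval homH hH0 h2 hb0
      intro x hx h
      obtain ⟨h3, h4⟩ := pH x hx h
      refine nc x hx (zG x hx h3 fun d k α σ hσ => ?_) h
      have h5 := congrArg (eval fun j => x j.succ) (cross _ _ _ _ hσ)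
      rw [map_mul, map_mul, eval_C, h4 _ _ _ _ hσ, zero_mul] at h5
      exact (mul_eq_zero.1 h5).resolve_right ht
  · left
    obtain ⟨t, ht, rfl⟩ := const_of_eval homF hF0 h1 ha0
    intro x hx h
    obtain ⟨h3, h4⟩ := pG x hx h
    refine nc x hx h (zH x hx h3 fun d k α σ hσ => ?_)
    have h5 := congrArg (eval fun j => x j.succ) (cross _ _ _ _ hσ)
    rw [map_mul, map_mul, eval_C, h4 _ _ _ _ hσ, zero_mul] at h5
    exact (mul_eq_zero.1 h5.symm).resolve_right ht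

/-- the quotient of the eigenvalues is a root of unity of small order -/
theorem main {d : ℤ} (hm : 2 ≤ m) (hE : ¬ (c.E.pull c.S c.hS).Splits)
    (h : ∃ G G' : Vec c.E.a n, Sec c.E d G ∧ Sec c.E d G' ∧
      eval (c.S (e0 (m + 1))) (c.W.wd G G') ≠ 0) :
    ∃ N : ℕ, 1 ≤ N ∧ 2 * (N : ℤ) ≤ 2 * d + c.W.κ.1 ∧ (c.μ / c.l) ^ N = 1 := by
  obtain ⟨k, j, α, β, G, H, sG, sH, he⟩ := c.data h
  obtain ⟨D, hD1, hD2, hD3, hD4⟩ := c.degree hE sG sH he
  have hfin : IsOfFinOrder (c.μ / c.l) := isOfFinOrder_iff_pow_eq_one.2 ⟨D, by omega, hD3⟩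
  have hN : 1 ≤ orderOf (c.μ / c.l) := hfin.orderOf_pos
  obtain ⟨q, hq⟩ := orderOf_dvd_of_pow_eq_one hD3
  refine ⟨orderOf (c.μ / c.l), hN, ?_, pow_orderOf_eq_one _⟩
  have hq2 : 2 ≤ q := by
    by_contra hc
    have hq1 : q = 1 := by
      rcases Nat.eq_zero_or_pos q with h0 | h0
      · rw [h0, mul_zero] at hq
        omega
      · omega
    rw [hq1, mul_one] at hq
    rw [hq] at hD4
    rcases c.nowhere hm hN (fun k hk => orderOf_dvd_of_pow_eq_one hk) sG sH hD4 he with h1 | h1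
    · exact hE (splits_of_nz (by omega) (sG.sec c) h1)
    · exact hE (splits_of_nz (by omega) (sH.sec c) h1)
  have h3 : orderOf (c.μ / c.l) * 2 ≤ D := by
    rw [hq]
    exact Nat.mul_le_mul_left _ hq2
  omega

end Ctx

end Pool.Agent.T4h19.EV
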