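import Pool.Agent.T4h19.EV5

/-!
# Symmetries of rank two bundles: construction of the data
-/

set_option autoImplicit false
set_option maxHeartbeats 400000

open MvPolynomial H960VB H938TB Pool.Agent.W615 Pool.Agent.W467.FO

namespace Pool.Agent.T4h19.EV

/-- the join of a point and a linear subspace -/
noncomputable def jn {n m : ℕ} (Q : Fin (n + 1) → ℂ)
    (S₀ : (Fin (m + 1) → ℂ) →ₗ[ℂ] (Fin (n + 1) → ℂ)) :
    (Fin (m + 1 + 1) → ℂ) →ₗ[ℂ] (Fin (n + 1) → ℂ) :=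
  (LinearMap.proj 0 : (Fin (m + 1 + 1) → ℂ) →ₗ[ℂ] ℂ).smulRight Q + S₀ ∘ₗ tl m

theorem jn_apply {n m : ℕ} (Q : Fin (n + 1) → ℂ)
    (S₀ : (Fin (m + 1) → ℂ) →ₗ[ℂ] (Fin (n + 1) → ℂ)) (x : Fin (m + 1 + 1) → ℂ) :
    jn Q S₀ x = x 0 • Q + S₀ (tl m x) := rfl

theorem jn_J {n m : ℕ} (Q : Fin (n + 1) → ℂ)
    (S₀ : (Fin (m + 1) → ℂ) →ₗ[ℂ] (Fin (n + 1) → ℂ)) : jn Q S₀ ∘ₗ J m = S₀ := by
  apply LinearMap.ext
  intro y
  rw [LinearMap.comp_apply, jn_apply, J_zero, zero_smul, zero_add]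
  congr 1

theorem jn_e0 {n m : ℕ} (Q : Fin (n + 1) → ℂ)
    (S₀ : (Fin (m + 1) → ℂ) →ₗ[ℂ] (Fin (n + 1) → ℂ)) : jn Q S₀ (e0 (m + 1)) = Q := by
  have h1 : tl m (e0 (m + 1)) = 0 := by
    funext j
    show e0 (m + 1) j.succ = 0
    exact Pi.single_eq_of_ne (Fin.succ_ne_zero _) _
  have h2 : e0 (m + 1) 0 = 1 := Pi.single_eq_same _ _
  rw [jn_apply, h1, h2, map_zero, one_smul, add_zero]

theorem final {n : ℕ} {E : Bundle2 n} (hE : ¬ E.Splits)
    {T : (Fin (n + 1) → ℂ) →ₗ[ℂ] (Fin (n + 1) → ℂ)} (O : GOp E T) (hT : Function.Injective T)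
    (W : Wedge (triv E)) {l μ : ℂ} (hlμ : l ≠ μ)
    (hl : 3 ≤ Module.finrank ℂ (LinearMap.ker (T - l • LinearMap.id)))
    {Q : Fin (n + 1) → ℂ} (hQ0 : Q ≠ 0) (hQ : T Q = μ • Q) {d : ℤ}
    (h : ∃ G G' : Vec E.a n, Sec E d G ∧ Sec E d G' ∧ eval Q (W.wd G G') ≠ 0) :
    ∃ N : ℕ, 1 ≤ N ∧ 2 * (N : ℤ) ≤ 2 * d + W.κ.1 ∧ (μ / l) ^ N = 1 := by
  obtain ⟨m, S₀, hm, hmn, hS₀, hTS₀, -⟩ := exists_S l hl
  have hn : 1 ≤ n := by omega
  have hTS₀' : ∀ y, T (S₀ y) = l • S₀ y := fun y => congrFun (congrArg DFunLike.coe hTS₀) y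
  have hμ0 : μ ≠ 0 := by
    rintro rfl
    rw [zero_smul] at hQ
    exact hQ0 (hT (by rw [hQ, map_zero]))
  have hl0 : l ≠ 0 := by
    rintro rfl
    have h1 := hTS₀' (fun _ => 1)
    rw [zero_smul] at h1
    have h2 : S₀ (fun _ => 1) = 0 := hT (by rw [h1, map_zero])
    have h3 : (fun _ => 1 : Fin (m + 1) → ℂ) = 0 := hS₀ (by rw [h2, map_zero])
    simpa using congrFun h3 0
  obtain ⟨κ, hκ0, hκ⟩ := O.det W hn hT
  have hE₀ : ¬ (E.pull S₀ hS₀).Splits := fun h =>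
    hE (Bundle2.splits_of_pull (n - m) m n hm (by omega) E S₀ hS₀ h)
  obtain ⟨u, hu, htyp⟩ := O.typeV W hκ0 hκ (by omega) S₀ hS₀ hl0 hTS₀ hE₀
  have hSi : Function.Injective (jn Q S₀) := by
    rw [injective_iff_map_eq_zero]
    intro x hx
    rw [jn_apply] at hx
    have h1 := congrArg T hx
    rw [map_add, map_smul, hQ, hTS₀', map_zero] at h1
    have h2 : (x 0 * (μ - l)) • Q = 0 := by
      have h3 : (x 0 * (μ - l)) • Q = (x 0 • μ • Q + l • S₀ (tl m x)) -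
          l • (x 0 • Q + S₀ (tl m x)) := by module
      rw [h3, h1, hx, smul_zero, sub_zero]
    have h4 : x 0 = 0 := by
      have h5 := (smul_eq_zero.1 h2).resolve_right hQ0
      exact (mul_eq_zero.1 h5).resolve_right (sub_ne_zero.2 (Ne.symm hlμ))
    rw [h4, zero_smul, zero_add] at hx
    have h5 : tl m x = 0 := hS₀ (by rw [hx, map_zero])
    funext j
    refine Fin.cases h4 (fun i => ?_) j
    exact congrFun h5 i
  have hTS : T ∘ₗ jn Q S₀ = jn Q S₀ ∘ₗ dg (m + 1) l μ := by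
    apply LinearMap.ext
    intro x
    have h1 : tl m (dg (m + 1) l μ x) = l • tl m x := by
      funext j
      show dg (m + 1) l μ x j.succ = l * x j.succ
      rw [dg_apply, if_neg (Fin.succ_ne_zero j)]
    have h2 : dg (m + 1) l μ x 0 = μ * x 0 := by rw [dg_apply, if_pos rfl]
    rw [LinearMap.comp_apply, LinearMap.comp_apply, jn_apply, jn_apply, h1, h2, map_add, map_smul,
      map_smul, hQ, hTS₀']
    module
  have hmn' : m + 1 ≤ n := by
    have := LinearMap.finrank_le_finrank_of_injective hSi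
    rw [Module.finrank_fintype_fun_eq_card, Module.finrank_fintype_fun_eq_card, Fintype.card_fin,
      Fintype.card_fin] at this
    omega
  have hE₁ : ¬ (E.pull (jn Q S₀) hSi).Splits := fun h =>
    hE (Bundle2.splits_of_pull (n - (m + 1)) (m + 1) n (by omega) (by omega) E _ hSi h)
  obtain ⟨W'⟩ := exists_wedge (by omega : 1 ≤ m + 1) (triv (E.pull (jn Q S₀) hSi))
  obtain ⟨hκ', ω, hω0, hω⟩ := wd_restrict (jn Q S₀) hSi W W' (by omega)
  let c : Ctx n m :=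
    { E := E, T := T, O := O, W := W, κ := κ, κ0 := hκ0, hκ := hκ, S := jn Q S₀, hS := hSi,
      l := l, μ := μ, l0 := hl0, μ0 := hμ0, hTS := hTS, u := u, hu := hu,
      htyp := by
        intro d α s hs hi
        refine htyp d α s hs ?_
        obtain ⟨i, hi⟩ := hi
        refine ⟨i, fun h0 => hi (dvd_of_J ?_)⟩
        have h1 : lsub (J m) (lsub (jn Q S₀) (s.1 i)) = lsub S₀ (s.1 i) := by
          rw [lsub_comp, jn_J]
        exact h1.trans h0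
      W' := W', hκ' := hκ', ω := ω, ω0 := hω0, hω := hω }
  refine c.main (d := d) hm hE₁ ?_
  show ∃ G G' : Vec E.a n, Sec E d G ∧ Sec E d G' ∧ eval (jn Q S₀ (e0 (m + 1))) (W.wd G G') ≠ 0
  rw [jn_e0]
  exact h

end Pool.Agent.T4h19.EV
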