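import Pool.Agent.T4h19.Stm

/-!
# Project RG, task fam: finitely many sections generate
-/

set_option autoImplicit false

open MvPolynomial H960VB H938TB Pool.Agent.W615 Pool.Agent.W467.FO

namespace Pool.Agent.T4h19

theorem fam_abs {n : ℕ} {T : Type} (wd : T → T → MvPolynomial (Fin (n + 1)) ℂ)
    (Q : ℤ → T → Prop)
    (h : ∀ x : Fin (n + 1) → ℂ, x ≠ 0 → ∃ (d e : ℤ) (s t : T), Q d s ∧ Q e t ∧
      eval x (wd s t) ≠ 0) :
    ∃ (M : ℕ) (δ : Fin M → ℤ) (s : Fin M → T), (∀ i, Q (δ i) (s i)) ∧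
      ∀ x : Fin (n + 1) → ℂ, x ≠ 0 → ∃ i j, eval x (wd (s i) (s j)) ≠ 0 := by
  classical
  -- the pairs
  let I : Type := {p : (ℤ × T) × (ℤ × T) // Q p.1.1 p.1.2 ∧ Q p.2.1 p.2.2}
  let f : I → MvPolynomial (Fin (n + 1)) ℂ := fun p => wd p.1.1.2 p.1.2.2
  have hfg : (Submodule.span (MvPolynomial (Fin (n + 1)) ℂ) (Set.range f)).FG :=
    IsNoetherian.noetherian _
  obtain ⟨F, hF, hF'⟩ := (Submodule.fg_span_iff_fg_span_finset_subset _).1 hfg
  -- the members of `F` come from pairs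
  have hch : ∀ q : {p // p ∈ F}, ∃ y : I, f y = q.1 := fun q => hF q.2
  choose g hg using hch
  let L : Type := {p // p ∈ F} × Bool
  let e := Fintype.equivFin L
  let dl : L → ℤ := fun q => if q.2 then (g q.1).1.1.1 else (g q.1).1.2.1
  let se : L → T := fun q => if q.2 then (g q.1).1.1.2 else (g q.1).1.2.2
  refine ⟨Fintype.card L, fun i => dl (e.symm i), fun i => se (e.symm i), ?_, ?_⟩
  · intro i
    have hQ : ∀ q : L, Q (dl q) (se q) := by
      rintro ⟨p, b⟩
      cases b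
      · exact (g p).2.2
      · exact (g p).2.1
    exact hQ _
  · intro x hx
    by_contra hcon
    push Not at hcon
    obtain ⟨d, e', s, t, hs, ht, hst⟩ := h x hx
    apply hst
    have h1 : ∀ p ∈ F, eval x p = 0 := by
      intro p hp
      have h2 := hcon (e (⟨p, hp⟩, true)) (e (⟨p, hp⟩, false))
      simp only [Equiv.symm_apply_apply] at h2
      have h3 : wd (g ⟨p, hp⟩).1.1.2 (g ⟨p, hp⟩).1.2.2 = p := hg ⟨p, hp⟩
      rw [← h3]
      exact h2
    have h4 : wd s t ∈ Submodule.span (MvPolynomial (Fin (n + 1)) ℂ) (F : Set _) := by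
      rw [← hF']
      exact Submodule.subset_span ⟨⟨((d, s), (e', t)), hs, ht⟩, rfl⟩
    have h5 : Submodule.span (MvPolynomial (Fin (n + 1)) ℂ) (F : Set _) ≤
        RingHom.ker (eval x : MvPolynomial (Fin (n + 1)) ℂ →+* ℂ) :=
      Submodule.span_le.2 fun p hp => h1 p hp
    exact h5 h4

theorem t_fam : S_fam := by
  intro n E W Q h
  exact fam_abs W.wd Q h

end Pool.Agent.T4h19
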