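import Pool.Agent.T4h19.Stm

/-! (gen) invariant sections generate (helper54). -/

set_option autoImplicit false
set_option maxHeartbeats 400000

open MvPolynomial H960VB H938TB Pool.Agent.W615 Pool.Agent.W467.FO

namespace Pool.Agent.T4h19

namespace Gen

variable {n : ℕ} {E : Bundle2 n} {Γ : Type} [Group Γ]

/-- separating a point from a finite set of other points -/
theorem sep {ι : Type} (x : ι → ℂ) (Y : Finset (ι → ℂ)) (hY : x ∉ Y) :
    ∃ p : MvPolynomial ι ℂ, eval x p = 1 ∧ ∀ y ∈ Y, eval y p = 0 := by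
  classical
  induction Y using Finset.induction_on with
  | empty => exact ⟨1, map_one _, fun y hy => absurd hy (Finset.notMem_empty y)⟩
  | insert y Y _ ih =>
    rw [Finset.mem_insert, not_or] at hY
    obtain ⟨p, hp, hpY⟩ := ih hY.2
    obtain ⟨i, hi⟩ := Function.ne_iff.1 hY.1
    have hi' : x i - y i ≠ 0 := sub_ne_zero.2 hi
    refine ⟨p * ((X i - C (y i)) * C (x i - y i)⁻¹), ?_, ?_⟩
    · rw [map_mul, map_mul, map_sub, eval_X, eval_C, eval_C, hp, one_mul, mul_inv_cancel₀ hi']
    · intro z hz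
      rw [map_mul, map_mul, map_sub, eval_X, eval_C, eval_C]
      rcases Finset.mem_insert.1 hz with h | h
      · rw [h, sub_self, zero_mul, mul_zero]
      · rw [hpY z h, zero_mul]

theorem D_zero {T : LM n} (O : GOp E T) : O.D (fun _ => 0) = fun _ => 0 := by
  have h := O.smul_sec (d := 0) (s := fun _ => 0) sec_zero 0
  simpa using h

theorem sec_sum {ι : Type} (S : Finset ι) (d : ℤ) (F : ι → Vec E.a n)
    (hF : ∀ g ∈ S, Sec E d (F g)) : Sec E d (fun i => ∑ g ∈ S, F g i) := by
  classical
  induction S using Finset.induction_on with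
  | empty => simpa using (sec_zero (E := E) (d := d))
  | insert g S hg ih =>
    have h1 := ih fun g' hg' => hF g' (Finset.mem_insert_of_mem hg')
    have h2 := sec_add (hF g (Finset.mem_insert_self g S)) h1
    simpa only [Finset.sum_insert hg] using h2

theorem D_sum {ι : Type} {T : LM n} (O : GOp E T) (S : Finset ι) (d : ℤ) (F : ι → Vec E.a n)
    (hF : ∀ g ∈ S, Sec E d (F g)) :
    O.D (fun i => ∑ g ∈ S, F g i) = fun i => ∑ g ∈ S, O.D (F g) i := by
  classical
  induction S using Finset.induction_on with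
  | empty => simpa using D_zero O
  | insert g S hg ih =>
    have h0 : ∀ g' ∈ S, Sec E d (F g') := fun g' hg' => hF g' (Finset.mem_insert_of_mem hg')
    have h1 := ih h0
    have h2 := O.add d (F g) (fun i => ∑ g ∈ S, F g i) (hF g (Finset.mem_insert_self g S))
      (sec_sum S d F h0)
    simp only [Finset.sum_insert hg]
    rw [h2, h1]

/-- the sum over the group -/
noncomputable def av [Fintype Γ] (A : Act E Γ) (s : Vec E.a n) : Vec E.a n :=
  fun i => ∑ g, (A.O g).D s i

theorem av_inv [Fintype Γ] (A : Act E Γ) (d : ℤ) (s : Vec E.a n) (hs : Sec E d s) :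
    A.Inv d (av A s) := by
  refine ⟨sec_sum _ d _ fun g _ => (A.O g).sec d s hs, fun h => ?_⟩
  unfold av
  rw [D_sum (A.O h) Finset.univ d _ fun g _ => (A.O g).sec d s hs]
  funext i
  refine Fintype.sum_equiv (Equiv.mulRight h) _ _ fun g => ?_
  rw [Equiv.coe_mulRight, A.mul g h d s hs]

theorem av_val [Fintype Γ] (A : Act E Γ) (d e : ℤ) (q : MvPolynomial (Fin (n + 1)) ℂ)
    (hq : HomZ q e) (G : Vec E.a n) (hG : Sec E d G) (x : Fin (n + 1) → ℂ) (i : Fin E.a) :
    eval x (av A (fun i => q * G i) i) =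
      ∑ g, eval (A.ρ g x) q * eval x ((A.O g).D G i) := by
  unfold av
  rw [map_sum]
  refine Finset.sum_congr rfl fun g _ => ?_
  rw [(A.O g).mul d e q G hG hq, map_mul, eval_lsub]

theorem comp_homZ (e : ℕ) (p : MvPolynomial (Fin (n + 1)) ℂ) :
    HomZ (homogeneousComponent e p) e :=
  Or.inr ⟨e, rfl, homogeneousComponent_isHomogeneous e p⟩

/-- the sum of the values of the averages -/
theorem tot [Fintype Γ] (A : Act E Γ) (hTr : A.Tr) (x : Fin (n + 1) → ℂ) (hx : x ≠ 0)
    (p : MvPolynomial (Fin (n + 1)) ℂ) (hp1 : eval x p = 1)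
    (hp0 : ∀ g, A.ρ g x ≠ x → eval (A.ρ g x) p = 0) (d : ℤ) (G : Vec E.a n) (hG : Sec E d G)
    (c : ℂ) (hc : c = ∑ g : Γ, eval (A.ρ g x) p) (i : Fin E.a) :
    ∑ e ∈ Finset.range (p.totalDegree + 1),
      eval x (av A (fun i => homogeneousComponent e p * G i) i) = c * eval x (G i) := by
  have h1 : ∀ e ∈ Finset.range (p.totalDegree + 1),
      eval x (av A (fun i => homogeneousComponent e p * G i) i) =
      ∑ g, eval (A.ρ g x) (homogeneousComponent e p) * eval x ((A.O g).D G i) := fun e _ =>
    av_val A d e _ (comp_homZ e p) G hG x i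
  rw [Finset.sum_congr rfl h1, Finset.sum_comm, hc, Finset.sum_mul]
  refine Finset.sum_congr rfl fun g _ => ?_
  rw [← Finset.sum_mul, ← map_sum, sum_homogeneousComponent]
  by_cases h : A.ρ g x = x
  · have h2 := congrFun (hTr x hx g h d G hG) i
    unfold evv at h2
    rw [h2]
  · rw [hp0 g h, zero_mul, zero_mul]

end Gen

open Gen in
theorem t_gen : S_gen := by
  classical
  intro n E Γ _ _ A W hTr x hx
  haveI : Fintype Γ := Fintype.ofFinite Γ
  obtain ⟨a, b, G, G', hG, hG', hne⟩ := exists_sec_ne W x hx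
  obtain ⟨p, hp1, hpY⟩ := sep x ((Finset.univ.image fun g => A.ρ g x).erase x)
    (Finset.notMem_erase x _)
  have hp0 : ∀ g, A.ρ g x ≠ x → eval (A.ρ g x) p = 0 := fun g hg =>
    hpY _ (Finset.mem_erase.2 ⟨hg, Finset.mem_image_of_mem _ (Finset.mem_univ g)⟩)
  set c : ℂ := ∑ g : Γ, eval (A.ρ g x) p with hc
  have hc0 : c ≠ 0 := by
    have h1 : c = ((Finset.univ.filter fun g : Γ => A.ρ g x = x).card : ℂ) := by
      rw [hc, Finset.card_filter, Nat.cast_sum]
      refine Finset.sum_congr rfl fun g _ => ?_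
      by_cases h : A.ρ g x = x
      · rw [if_pos h, h, hp1, Nat.cast_one]
      · rw [if_neg h, hp0 g h, Nat.cast_zero]
    rw [h1, Nat.cast_ne_zero]
    apply Finset.card_ne_zero_of_mem (a := (1 : Γ))
    rw [Finset.mem_filter]
    refine ⟨Finset.mem_univ _, ?_⟩
    rw [A.ρ_one, LinearMap.id_apply]
  set t : ℕ → Vec E.a n := fun e => av A (fun i => homogeneousComponent e p * G i) with ht
  set t' : ℕ → Vec E.a n := fun e => av A (fun i => homogeneousComponent e p * G' i) with ht'
  have hti : ∀ e : ℕ, A.Inv (e + a) (t e) := fun e => av_inv A _ _ (sec_mul (comp_homZ e p) hG)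
  have hti' : ∀ e : ℕ, A.Inv (e + b) (t' e) := fun e => av_inv A _ _ (sec_mul (comp_homZ e p) hG')
  by_contra hcon
  push Not at hcon
  have hz : ∀ e e' : ℕ, ∀ i j, eval x (t e i) * eval x (t' e' j) -
      eval x (t e j) * eval x (t' e' i) = 0 := by
    intro e e' i j
    have h1 := hcon (e + a) (e' + b) (t e) (t' e') (hti e) (hti' e')
    have h2 := congrArg (eval x) (W.eq (t e) (t' e') (hti e).1.ker (hti' e').1.ker i j)
    rw [map_sub, map_mul, map_mul, map_mul, h1, zero_mul] at h2
    exact h2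
  have hS := fun i => tot A hTr x hx p hp1 hp0 a G hG c hc i
  have hS' := fun i => tot A hTr x hx p hp1 hp0 b G' hG' c hc i
  have hfin : ∀ i j, eval x (W.wd G G') * eval x (W.P i j) = 0 := by
    intro i j
    have h1 : (∑ e ∈ Finset.range (p.totalDegree + 1), eval x (t e i)) *
        (∑ e' ∈ Finset.range (p.totalDegree + 1), eval x (t' e' j)) -
        (∑ e ∈ Finset.range (p.totalDegree + 1), eval x (t e j)) *
        (∑ e' ∈ Finset.range (p.totalDegree + 1), eval x (t' e' i)) = 0 := by
      rw [Finset.sum_mul_sum, Finset.sum_mul_sum, ← Finset.sum_sub_distrib]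
      refine Finset.sum_eq_zero fun e _ => ?_
      rw [← Finset.sum_sub_distrib]
      exact Finset.sum_eq_zero fun e' _ => hz e e' i j
    rw [show (∑ e ∈ Finset.range (p.totalDegree + 1), eval x (t e i)) = c * eval x (G i) from hS i,
      show (∑ e ∈ Finset.range (p.totalDegree + 1), eval x (t e j)) = c * eval x (G j) from hS j,
      show (∑ e ∈ Finset.range (p.totalDegree + 1), eval x (t' e i)) = c * eval x (G' i) from
        hS' i,
      show (∑ e ∈ Finset.range (p.totalDegree + 1), eval x (t' e j)) = c * eval x (G' j) from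
        hS' j] at h1
    have h2 : c ^ 2 * (eval x (G i) * eval x (G' j) - eval x (G j) * eval x (G' i)) = 0 := by
      linear_combination h1
    have h3 := (mul_eq_zero.1 h2).resolve_left (pow_ne_zero 2 hc0)
    have h4 := congrArg (eval x) (W.eq G G' hG.ker hG'.ker i j)
    rw [map_sub, map_mul, map_mul, map_mul, h3] at h4
    exact h4.symm
  obtain ⟨i, j, hP⟩ := W.P_ne x hx
  exact hP ((mul_eq_zero.1 (hfin i j)).resolve_left hne)

end Pool.Agent.T4h19
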