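import Pool.Agent.T4h19.Stm

/-!
# Project RG, task gram: the bundle of a Gram matrix (helper64)
-/

set_option autoImplicit false
set_option maxHeartbeats 400000

open MvPolynomial H960VB H938TB Pool.Agent.W615 Pool.Agent.W467.FO

namespace Pool.Agent.T4h19

section generic

variable {M : ℕ} {R : Type*} [CommRing R]

/-- the rows of the matrix of the relations `w_jk p_i - w_ik p_j + w_ij p_k`. -/
def grow (w : Fin M → Fin M → R) (t : Fin M × Fin M × Fin M) (l : Fin M) : R :=
  if t.1 ≠ t.2.1 ∧ t.1 ≠ t.2.2 ∧ t.2.1 ≠ t.2.2 then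
    (if l = t.1 then w t.2.1 t.2.2 else if l = t.2.1 then w t.2.2 t.1 else
      if l = t.2.2 then w t.1 t.2.1 else 0)
  else 0

theorem grow_sum (w : Fin M → Fin M → R) (ha : ∀ i j, w i j = - w j i) (p : Fin M → R)
    (i j k : Fin M) (hij : i ≠ j) (hik : i ≠ k) (hjk : j ≠ k) :
    ∑ l, grow w (i, j, k) l * p l = w j k * p i - w i k * p j + w i j * p k := by
  have h1 : ∀ l, grow w (i, j, k) l * p l = (if l = i then w j k * p l else 0) +
      (if l = j then w k i * p l else 0) + (if l = k then w i j * p l else 0) := by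
    intro l
    unfold grow
    simp only
    rw [if_pos ⟨hij, hik, hjk⟩]
    by_cases h1 : l = i
    · subst h1
      simp [hij, hik]
    · by_cases h2 : l = j
      · subst h2
        simp [h1, hjk]
      · by_cases h3 : l = k
        · subst h3
          simp [h1, h2]
        · simp [h1, h2, h3]
  simp_rw [h1]
  rw [Finset.sum_add_distrib, Finset.sum_add_distrib, Finset.sum_ite_eq', Finset.sum_ite_eq',
    Finset.sum_ite_eq']
  simp only [Finset.mem_univ, if_true]
  rw [ha k i]
  ring

theorem grow_iff (w : Fin M → Fin M → R) (h0 : ∀ i, w i i = 0) (ha : ∀ i j, w i j = - w j i)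
    (p : Fin M → R) :
    (∀ t, ∑ l, grow w t l * p l = 0) ↔
      ∀ i j k, w j k * p i - w i k * p j + w i j * p k = 0 := by
  constructor
  · intro h i j k
    by_cases hij : i = j
    · subst hij
      rw [h0]
      ring
    by_cases hik : i = k
    · subst hik
      rw [h0, ha j i]
      ring
    by_cases hjk : j = k
    · subst hjk
      rw [h0]
      ring
    rw [← grow_sum w ha p i j k hij hik hjk]
    exact h _
  · rintro h ⟨i, j, k⟩
    by_cases hd : i ≠ j ∧ i ≠ k ∧ j ≠ k
    · rw [grow_sum w ha p i j k hd.1 hd.2.1 hd.2.2]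
      exact h i j k
    · apply Finset.sum_eq_zero
      intro l _
      unfold grow
      simp only
      rw [if_neg hd, zero_mul]

end generic

theorem ker_two {M : ℕ} (w : Fin M → Fin M → ℂ) (h0 : ∀ i, w i i = 0)
    (ha : ∀ i j, w i j = - w j i)
    (h4 : ∀ i j k l, w i j * w k l - w i k * w j l + w i l * w j k = 0)
    (i0 j0 : Fin M) (hne : w i0 j0 ≠ 0) (K : Submodule ℂ (Fin M → ℂ))
    (hK : ∀ p, p ∈ K ↔ ∀ i j k, w j k * p i - w i k * p j + w i j * p k = 0) :
    Module.finrank ℂ K = 2 := by
  let f : K →ₗ[ℂ] ℂ × ℂ :=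
    ((LinearMap.proj (R := ℂ) (φ := fun _ : Fin M => ℂ) i0).prod
      (LinearMap.proj (R := ℂ) (φ := fun _ : Fin M => ℂ) j0)) ∘ₗ K.subtype
  have hfa : ∀ p : K, f p = ((p : Fin M → ℂ) i0, (p : Fin M → ℂ) j0) := fun p => rfl
  have hinj : Function.Injective f := by
    rw [← LinearMap.ker_eq_bot, LinearMap.ker_eq_bot']
    rintro ⟨p, hp⟩ hf
    rw [hfa] at hf
    have h1 : p i0 = 0 := congrArg Prod.fst hf
    have h2 : p j0 = 0 := congrArg Prod.snd hf
    have h3 : p = 0 := by
      funext k
      have h4 := (hK p).1 hp i0 j0 k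
      rw [h1, h2] at h4
      have h5 : w i0 j0 * p k = 0 := by linear_combination h4
      rcases mul_eq_zero.1 h5 with h6 | h6
      · exact absurd h6 hne
      · exact h6
    exact Subtype.ext h3
  have hsurj : Function.Surjective f := by
    rintro ⟨a, b⟩
    have hmem : (fun k => (w i0 k * b - w j0 k * a) / w i0 j0) ∈ K := by
      rw [hK]
      intro i j k
      have e1 := h4 i0 i j k
      have e2 := h4 j0 i j k
      field_simp
      linear_combination b * e1 - a * e2
    refine ⟨⟨_, hmem⟩, ?_⟩
    rw [hfa]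
    simp only
    refine Prod.ext ?_ ?_
    · simp only
      rw [h0 i0, ha j0 i0]
      field_simp
      ring
    · simp only
      rw [h0 j0]
      field_simp
      ring
  rw [(LinearEquiv.ofBijective f ⟨hinj, hsurj⟩).finrank_eq]
  simp

theorem t_gram : S_gram := by
  intro n E W M δ s hs hx
  have hk : ∀ i, Ker E (s i) := fun i => (hs i).ker
  obtain ⟨w, hw⟩ : ∃ w : Fin M → Fin M → MvPolynomial (Fin (n + 1)) ℂ,
      ∀ i j, w i j = W.wd (s i) (s j) := ⟨fun i j => W.wd (s i) (s j), fun _ _ => rfl⟩
  have h0 : ∀ i, w i i = 0 := fun i => by rw [hw]; exact wd_self W (hk i)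
  have ha : ∀ i j, w i j = - w j i := fun i j => by
    rw [hw, hw]
    exact W.anti _ _ (hk i) (hk j)
  have h4 : ∀ i j k l, w i j * w k l - w i k * w j l + w i l * w j k = 0 := fun i j k l => by
    simp only [hw]
    exact W.four _ _ _ _ (hk i) (hk j) (hk k) (hk l)
  have hh : ∀ i j, HomZ (w i j) (δ i + δ j + W.κ.1) := fun i j => by
    rw [hw]
    exact wd_homZ W (hs i) (hs j)
  simp only [← hw] at hx ⊢
  let e := Fintype.equivFin (Fin M × Fin M × Fin M)
  refine ⟨_, fun k => δ (e.symm k).1 + δ (e.symm k).2.1 + δ (e.symm k).2.2 + 2 * W.κ.1,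
    Matrix.of (fun k l => grow w (e.symm k) l), ?_, ?_, ?_, ?_⟩
  · intro k l
    show HomZ (grow w (e.symm k) l)
      (δ (e.symm k).1 + δ (e.symm k).2.1 + δ (e.symm k).2.2 + 2 * W.κ.1 - (δ l + W.κ.1))
    generalize e.symm k = t
    obtain ⟨i, j, m⟩ := t
    unfold grow
    simp only
    split_ifs with h h1 h2 h3
    · subst h1
      convert hh j m using 1
      ring
    · subst h2
      convert hh m i using 1
      ring
    · subst h3
      convert hh i j using 1
      ring
    · exact Or.inl rfl
    · exact Or.inl rfl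
  · intro x hx0
    obtain ⟨i0, j0, hne⟩ := hx x hx0
    refine ker_two (fun i j => eval x (w i j)) (fun i => ?_) (fun i j => ?_) (fun i j k l => ?_)
      i0 j0 hne _ (fun p => ?_)
    · rw [h0, map_zero]
    · rw [ha i j, map_neg]
    · have := congrArg (eval x) (h4 i j k l)
      simpa only [map_add, map_sub, map_mul, map_zero] using this
    · rw [← grow_iff (fun i j => eval x (w i j)) (fun i => by rw [h0, map_zero])
        (fun i j => by rw [ha i j, map_neg]) p]
      rw [LinearMap.mem_ker, Matrix.mulVecLin_apply]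
      have hent : ∀ k l, evm (Matrix.of (fun k l => grow w (e.symm k) l)) x k l =
          grow (fun i j => eval x (w i j)) (e.symm k) l := by
        intro k l
        show eval x (grow w (e.symm k) l) = _
        unfold grow
        split_ifs <;> simp
      constructor
      · intro h t
        have h1 := congrFun h (e t)
        rw [Matrix.mulVec, dotProduct] at h1
        simp only [hent, Equiv.symm_apply_apply] at h1
        exact h1
      · intro h
        funext k
        rw [Matrix.mulVec, dotProduct]
        simp only [hent]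
        exact h (e.symm k)
  · intro k l
    show grow w (e.symm k) l = 0 ∨ ∃ j m, grow w (e.symm k) l = w j m
    unfold grow
    split_ifs
    · exact Or.inr ⟨_, _, rfl⟩
    · exact Or.inr ⟨_, _, rfl⟩
    · exact Or.inr ⟨_, _, rfl⟩
    · exact Or.inl rfl
    · exact Or.inl rfl
  · intro p
    rw [← grow_iff w h0 ha p]
    constructor
    · intro h t
      have h1 := h (e t)
      simp only [Matrix.of_apply, Equiv.symm_apply_apply] at h1
      exact h1
    · intro h k
      simp only [Matrix.of_apply]
      exact h (e.symm k)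

end Pool.Agent.T4h19
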