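import Pool.Agent.T4h19.Stm

/-! # Project RG, task lift: sections from their wedge products -/

set_option autoImplicit false
set_option maxHeartbeats 400000

open MvPolynomial H960VB H938TB Pool.Agent.W615 Pool.Agent.W467.FO

namespace Pool.Agent.T4h19

namespace Lift

variable {n : ℕ} {E : Bundle2 n}

/-- cancel a nonzero homogeneous factor of a section -/
theorem sec_of_mul {d e : ℤ} {q : MvPolynomial (Fin (n + 1)) ℂ} {H : Vec E.a n} (hq : HomZ q e)
    (hq0 : q ≠ 0) (h : Sec E (e + d) (fun i => q * H i)) : Sec E d H := by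
  refine ⟨fun i => ?_, ker_of_mul hq0 h.ker⟩
  by_cases hi : H i = 0
  · rw [hi]
    exact isWeightedHomogeneous_zero _ _ _
  · have h1 := h.hom i
    obtain ⟨a, b, hab, ha, hb⟩ := hom_of_mul _ h1 (mul_ne_zero hq0 hi)
    have h2 : a = ((e, 0) : M) := ha.inj_right hq0 (wh_triv hq)
    have h3 : ((E.β i, (triv E).b i) + ((d, 0) : M) : M) = b := by
      have h4 : b = ((E.β i, (triv E).b i) + ((e + d, 0) : M)) - a := by
        rw [← hab]; abel
      rw [h4, h2]
      ext <;> simp
      ring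
    rw [h3]
    exact hb

end Lift

theorem t_lift : S_lift := by
  intro n E W M δ s hn hs hx d p hp rel
  -- a nonzero product
  obtain ⟨i0, j0, hw⟩ := hx (fun _ => 1) (fun h => by simpa using congrFun h 0)
  have hw0 : W.wd (s i0) (s j0) ≠ 0 := fun h => hw (by rw [h, map_zero])
  have hk : ∀ i, Ker E (s i) := fun i => (hs i).ker
  have hkA : ∀ i j, Ker E (fun l => p j * s i l - p i * s j l) := fun i j =>
    ker_sub (ker_mul (hk i) (p j)) (ker_mul (hk j) (p i))
  have hwA : ∀ i j q, W.wd (fun l => p j * s i l - p i * s j l) (s q) =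
      W.wd (s i) (s j) * p q := by
    intro i j q
    rw [wd_sub_left W (ker_mul (hk i) (p j)) (ker_mul (hk j) (p i)) (hk q),
      W.smul _ _ _ (hk i) (hk q), W.smul _ _ _ (hk j) (hk q)]
    linear_combination (-1 : MvPolynomial (Fin (n + 1)) ℂ) * rel i j q
  -- proportionality
  have hprop : ∀ i j l, W.wd (s i0) (s j0) * (p j * s i l - p i * s j l) =
      W.wd (s i) (s j) * (p j0 * s i0 l - p i0 * s j0 l) := by
    intro i j l
    have hZ1 := ker_mul (hkA i0 j0) (W.wd (s i) (s j))
    have hZ2 := ker_mul (hkA i j) (W.wd (s i0) (s j0))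
    have hZ := ker_sub hZ1 hZ2
    have hz : ∀ q, W.wd (fun l => W.wd (s i) (s j) * (p j0 * s i0 l - p i0 * s j0 l) -
        W.wd (s i0) (s j0) * (p j * s i l - p i * s j l)) (s q) = 0 := by
      intro q
      rw [wd_sub_left W hZ1 hZ2 (hk q), W.smul _ _ _ (hkA i0 j0) (hk q),
        W.smul _ _ _ (hkA i j) (hk q), hwA, hwA]
      ring
    have h3 := W.three _ (s i0) (s j0) hZ (hk i0) (hk j0) l
    rw [hz, hz] at h3
    have h4 : W.wd (s i0) (s j0) * (W.wd (s i) (s j) * (p j0 * s i0 l - p i0 * s j0 l) -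
        W.wd (s i0) (s j0) * (p j * s i l - p i * s j l)) = 0 := by
      linear_combination h3
    have h5 := (mul_eq_zero.1 h4).resolve_left hw0
    linear_combination (-1 : MvPolynomial (Fin (n + 1)) ℂ) * h5
  -- divisibility
  have hdvd : ∀ l, W.wd (s i0) (s j0) ∣ p j0 * s i0 l - p i0 * s j0 l := by
    intro l
    refine dvd_of_primes hw0 fun π hπ _ => ?_
    obtain ⟨v, hv, hv0⟩ := no_isolated_prime (by omega) π hπ
    obtain ⟨i, j, hij⟩ := hx v hv
    refine ⟨W.wd (s i) (s j), p j * s i l - p i * s j l, hprop i j l, ?_⟩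
    rintro ⟨q, hq⟩
    apply hij
    rw [hq, map_mul, hv0, zero_mul]
  choose G hG using hdvd
  have hA : (fun l => p j0 * s i0 l - p i0 * s j0 l) =
      fun l => W.wd (s i0) (s j0) * G l := funext hG
  have hkG : Ker E G := by
    apply ker_of_mul hw0
    rw [← hA]
    exact hkA i0 j0
  refine ⟨G, ?_, fun q => ?_⟩
  · apply Lift.sec_of_mul (wd_homZ W (hs i0) (hs j0)) hw0
    rw [← hA]
    have h1 := sec_mul (hp j0) (hs i0)
    have h2 := sec_mul (hp i0) (hs j0)
    have e1 : d + (δ j0 + W.κ.1) + δ i0 = δ i0 + δ j0 + W.κ.1 + d := by ring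
    have e2 : d + (δ i0 + W.κ.1) + δ j0 = δ i0 + δ j0 + W.κ.1 + d := by ring
    rw [e1] at h1
    rw [e2] at h2
    exact sec_sub h1 h2
  · apply mul_left_cancel₀ hw0
    rw [← W.smul _ _ _ hkG (hk q), ← hA, hwA]

end Pool.Agent.T4h19
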