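import Pool.Agent.T4h19.Stm

/-!
# Task scal: a reflection acts on the fibres over its hyperplane by a scalar
-/

set_option autoImplicit false
set_option maxHeartbeats 400000

open MvPolynomial H960VB H938TB Pool.Agent.W615 Pool.Agent.W467.FO

namespace Pool.Agent.T4h19

namespace Scal

variable {n : ℕ} {E : Bundle2 n} {Γ : Type} [Group Γ]

theorem rho_inj (A : Act E Γ) (g : Γ) : Function.Injective (A.ρ g) := by
  have h : A.ρ g⁻¹ ∘ₗ A.ρ g = LinearMap.id := by
    rw [← A.ρ_mul, inv_mul_cancel, A.ρ_one]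
  intro x y hxy
  have h1 := LinearMap.congr_fun h x
  have h2 := LinearMap.congr_fun h y
  rw [LinearMap.comp_apply, LinearMap.id_apply] at h1 h2
  rw [← h1, ← h2, hxy]

/-- the powers of the operator -/
theorem lin_pow (A : Act E Γ) (g : Γ) (d : ℤ) (k : ℕ) (s : S0 E d) :
    (((A.O g).lin d ^ k) s : Vec E.a n) = (A.O (g ^ k)).D s := by
  induction k with
  | zero =>
    have h1 : ∀ h : Γ, h = 1 → (A.O h).D (s : Vec E.a n) = s := by
      rintro _ rfl
      exact A.one d s s.2
    rw [h1 _ (pow_zero g), pow_zero, Module.End.one_apply]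
  | succ k ih =>
    have h1 : ∀ h : Γ, h = g ^ k * g → (A.O h).D (s : Vec E.a n) = (A.O g).D ((A.O (g ^ k)).D s) := by
      rintro _ rfl
      exact A.mul _ _ d s s.2
    rw [h1 _ (pow_succ g k), pow_succ', Module.End.mul_apply, ← ih]
    rfl

theorem lin_card [Finite Γ] (A : Act E Γ) (g : Γ) (d : ℤ) : ((A.O g).lin d) ^ Nat.card Γ = 1 := by
  apply LinearMap.ext
  intro s
  apply Subtype.ext
  rw [lin_pow, Module.End.one_apply]
  have h1 : ∀ h : Γ, h = 1 → (A.O h).D (s : Vec E.a n) = s := by
    rintro _ rfl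
    exact A.one d s s.2
  exact h1 _ pow_card_eq_one'

/-- a generalised eigenvector is an eigenvector -/
theorem eig {V : Type*} [AddCommGroup V] [Module ℂ V] [FiniteDimensional ℂ V] (f : V →ₗ[ℂ] V) {N : ℕ}
    (hN : N ≠ 0) (hf : f ^ N = 1) (α : ℂ) (k : ℕ) (v : V) (hv : ((f - α • 1) ^ k) v = 0) : f v = α • v := by
  have hss : Module.End.IsSemisimple f := by
    refine Module.End.isSemisimple_of_squarefree_aeval_eq_zero (p := (Polynomial.X ^ N - 1 : Polynomial ℂ)) ?_ ?_
    · have h1 : (Polynomial.X ^ N - 1 : Polynomial ℂ).Separable :=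
        Polynomial.X_pow_sub_one_separable_iff.2 (by exact_mod_cast hN)
      exact h1.squarefree
    · simp [hf]
  have h1 : v ∈ Module.End.maxGenEigenspace f α := by
    rw [Module.End.mem_maxGenEigenspace]
    exact ⟨k, hv⟩
  rw [hss.isFinitelySemisimple.maxGenEigenspace_eq_eigenspace] at h1
  exact Module.End.mem_eigenspace_iff.1 h1

end Scal

open Scal in
theorem t_scal : S_scal := by
  classical
  intro n E Γ _ _ A hn3 hE g hg
  set T := A.ρ g with hTdef
  have hT : Function.Injective T := rho_inj A g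
  have hfin : 3 ≤ Module.finrank ℂ (LinearMap.ker (T - (1 : ℂ) • LinearMap.id)) := by
    rw [one_smul]
    exact hn3.trans hg
  obtain ⟨m, S, hm2, hmn, hSi, hTS, hr⟩ := exists_S (1 : ℂ) hfin
  have hn : 1 ≤ n := by omega
  obtain ⟨W⟩ := exists_wedge hn (triv E)
  obtain ⟨κ, hκ0, hκ⟩ := (A.O g).det W hn hT
  have hE' : ¬ (E.pull S hSi).Splits := fun h =>
    hE (Bundle2.splits_of_pull (n - m) m n hm2 (by omega) E S hSi h)
  obtain ⟨u, hu, hu'⟩ := (A.O g).typeV W hκ0 hκ (by omega) S hSi one_ne_zero hTS hE'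
  refine ⟨u, fun x hx d s hs => ?_⟩
  let L : S0 E d →ₗ[ℂ] (Fin E.a → ℂ) :=
    { toFun := fun s => evv (s : Vec E.a n) x
      map_add' := by
        intro a b
        funext i
        show eval x ((a : Vec E.a n) i + (b : Vec E.a n) i) = _
        rw [map_add]
        rfl
      map_smul' := by
        intro c a
        funext i
        show eval x (c • (a : Vec E.a n) i) = _
        rw [smul_eval]
        rfl }
  have hL : ∀ s : S0 E d, L s = evv (s : Vec E.a n) x := fun _ => rfl
  have key : L ∘ₗ (A.O g).lin d = u • L := by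
    obtain ⟨r, v, ε, k, hv, hspan⟩ := exists_ge_family ((A.O g).lin d)
    refine LinearMap.ext_on_range (v := v) hspan fun j => ?_
    have h1 : (A.O g).lin d (v j) = ε j • v j :=
      eig _ Nat.card_pos.ne' (lin_card A g d) (ε j) (k j) (v j) (hv j)
    rw [LinearMap.comp_apply, LinearMap.smul_apply, h1, map_smul]
    by_cases h0 : L (v j) = 0
    · rw [h0, smul_zero, smul_zero]
    · have h2 : ε j = u * 1 ^ d := by
        refine hu' d (ε j) (v j) ⟨k j, hv j⟩ ?_
        obtain ⟨y, hy⟩ := hr x (by rw [hx, one_smul])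
        by_contra hc
        push Not at hc
        apply h0
        rw [hL]
        funext i
        have h3 : eval x ((v j).1 i) = 0 := by
          rw [← hy, ← eval_lsub]
          have h4 : lsub S ((v j).1 i) = 0 := hc i
          rw [h4, map_zero]
        exact h3
      rw [one_zpow, mul_one] at h2
      rw [h2]
  exact LinearMap.congr_fun key ⟨s, hs⟩

end Pool.Agent.T4h19

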