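import Pool.Agent.T4h19.Stm

/-!
# Project RG, task triv: the stabilisers act trivially (helper64)
-/

set_option autoImplicit false
set_option maxHeartbeats 400000

open MvPolynomial H960VB H938TB Pool.Agent.W615 Pool.Agent.W467.FO

namespace Pool.Agent.T4h19

theorem t_triv : S_triv := by
  intro hscal n E Γ _ _ A hn hE hSt hNm x hx g hg
  obtain ⟨W⟩ := exists_wedge (by omega) (triv E)
  -- reflections fixing `x`
  have hrefl : ∀ r, A.Refl r → A.ρ r x = x →
      ∀ (d : ℤ) s, Sec E d s → evv ((A.O r).D s) x = evv s x := by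
    intro r hr hrx d s hs
    obtain ⟨u, hu⟩ := hscal n E Γ A hn hE r hr
    obtain ⟨y, hy0, hry, hyy⟩ := hNm r hr
    obtain ⟨a, b, G, G', hG, hG', hne⟩ := exists_sec_ne W y hy0
    have hli := (W.ind y hy0 G G' hG.ker hG'.ker).1 hne
    have hGne : evv G y ≠ 0 := hli.ne_zero 0
    have h1 : u • evv G y = evv G y := by
      rw [← hu y hry a G hG]
      exact hyy a G hG
    have hu1 : u = 1 := by
      have h2 : (u - 1) • evv G y = 0 := by
        rw [sub_smul, h1, one_smul, sub_self]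
      rcases smul_eq_zero.1 h2 with h3 | h3
      · exact sub_eq_zero.1 h3
      · exact absurd h3 hGne
    rw [hu x hrx d s hs, hu1, one_smul]
  have hmem := hSt x hx g hg
  have key : A.ρ g x = x ∧ ∀ (d : ℤ) s, Sec E d s → evv ((A.O g).D s) x = evv s x := by
    refine Subgroup.closure_induction
      (p := fun g _ => A.ρ g x = x ∧ ∀ (d : ℤ) s, Sec E d s → evv ((A.O g).D s) x = evv s x)
      ?_ ?_ ?_ ?_ hmem
    · rintro r ⟨hr, hrx⟩
      exact ⟨hrx, hrefl r hr hrx⟩
    · refine ⟨by rw [A.ρ_one]; rfl, fun d s hs => by rw [A.one d s hs]⟩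
    · rintro a b _ _ ⟨ha, ha'⟩ ⟨hb, hb'⟩
      refine ⟨?_, fun d s hs => ?_⟩
      · rw [A.ρ_mul, LinearMap.comp_apply, hb, ha]
      · rw [A.mul a b d s hs, hb' d _ ((A.O a).sec d s hs), ha' d s hs]
    · rintro a _ ⟨ha, ha'⟩
      have hinv : A.ρ a⁻¹ x = x := by
        have h1 : A.ρ (a⁻¹ * a) x = x := by
          rw [inv_mul_cancel, A.ρ_one]
          rfl
        rw [A.ρ_mul, LinearMap.comp_apply, ha] at h1
        exact h1
      refine ⟨hinv, fun d s hs => ?_⟩
      have h1 : (A.O (a⁻¹ * a)).D s = s := by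
        rw [inv_mul_cancel]
        exact A.one d s hs
      rw [A.mul a⁻¹ a d s hs] at h1
      have h2 := ha' d _ ((A.O a⁻¹).sec d s hs)
      rw [h1] at h2
      exact h2.symm
  exact key.2

end Pool.Agent.T4h19
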