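import Pool.Agent.T4h19.Chi
import Pool.Agent.T4h19.Fam
import Pool.Agent.T4h19.Gen
import Pool.Agent.T4h19.Gram
import Pool.Agent.T4h19.Lift
import Pool.Agent.T4h19.Scal
import Pool.Agent.T4h19.Triv

/-!
# Project RG: composition
-/

set_option autoImplicit false
set_option maxHeartbeats 400000

open MvPolynomial H960VB H938TB Pool.Agent.W615 Pool.Agent.W467.FO

namespace Pool.Agent.T4h19

theorem main {n : ℕ} (hn : 3 ≤ n) {E : Bundle2 n} (hE : ¬ E.Splits) {Γ : Type} [Group Γ]
    [Finite Γ] (A : Act E Γ) (hSt : A.St) (hNm : A.Nm) :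
    ∃ (E' : Bundle2 n) (Ψ : Vec E.a n → Vec E'.a n),
      (∀ d G, Sec E d G → Sec E' d (Ψ G)) ∧
      (∀ d G G', Sec E d G → Sec E d G' → Ψ (fun i => G i + G' i) = fun i => Ψ G i + Ψ G' i) ∧
      (∀ d (p : MvPolynomial (Fin (n + 1)) ℂ) G, Sec E d G →
        Ψ (fun i => p * G i) = fun i => p * Ψ G i) ∧
      (∀ d H, Sec E' d H → ∃! G, Sec E d G ∧ Ψ G = H) ∧
      (∀ g, A.Refl g → ∀ k i, lsub (A.ρ g) (E'.B k i) = E'.B k i) := by
  have hTr : A.Tr := t_triv t_scal n E Γ A hn hE hSt hNm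
  obtain ⟨W⟩ := exists_wedge (by omega : 1 ≤ n) (triv E)
  have hgen := t_gen n E Γ A W hTr
  obtain ⟨χ, hχ1, hχ2⟩ := t_chi n E Γ A W (by omega) hgen
  obtain ⟨M, δ, s, hs, hne⟩ := t_fam n E W A.Inv hgen
  have hsec : ∀ i, Sec E (δ i) (s i) := fun i => (hs i).1
  obtain ⟨c, γ, B, hom, rk, hent, hker⟩ := t_gram n E W M δ s hsec hne
  let E' : Bundle2 n :=
    { a := M, c := c, β := fun i => δ i + W.κ.1, γ := γ, B := B, hom := hom, rank_two := rk }
  refine ⟨E', fun G i => W.wd G (s i), ?_, ?_, ?_, ?_, ?_⟩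
  · intro d G hG
    refine ⟨fun i => ?_, ?_⟩
    · have h1 := wh_triv (wd_homZ W hG (hsec i))
      convert h1 using 1
      ext <;> simp [triv, E']
      ring
    · exact (hker (fun i => W.wd G (s i))).2 fun i j k => by
        have h1 := W.four G (s i) (s j) (s k) hG.ker (hsec i).ker (hsec j).ker (hsec k).ker
        linear_combination h1
  · intro d G G' hG hG'
    funext i
    exact wd_add_left W hG.ker hG'.ker (hsec i).ker
  · intro d p G hG
    funext i
    exact W.smul p G (s i) hG.ker (hsec i).ker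
  · intro d H hH
    obtain ⟨G, hG, hG'⟩ := t_lift n E W M δ s (by omega) hsec hne d H (fun i => by
      have h1 : HomZ (H i) (E'.β i + d) := hH.homZ i
      have h2 : E'.β i + d = d + (δ i + W.κ.1) := by
        show (δ i + W.κ.1) + d = d + (δ i + W.κ.1)
        ring
      rw [h2] at h1
      exact h1) ((hker H).1 hH.ker)
    refine ⟨G, ⟨hG, funext hG'⟩, ?_⟩
    rintro K ⟨hK, hK'⟩
    obtain ⟨i, j, hij⟩ := hne (fun _ => 1) (fun h => by simpa using congrFun h 0)
    have h0 : W.wd (s i) (s j) ≠ 0 := fun h0 => hij (by rw [h0, map_zero])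
    funext l
    have h1 := W.three K (s i) (s j) hK.ker (hsec i).ker (hsec j).ker l
    have h2 := W.three G (s i) (s j) hG.ker (hsec i).ker (hsec j).ker l
    have h3 : W.wd K (s i) = W.wd G (s i) := (congrFun hK' i).trans (hG' i).symm
    have h4 : W.wd K (s j) = W.wd G (s j) := (congrFun hK' j).trans (hG' j).symm
    apply mul_left_cancel₀ h0
    rw [h3, h4] at h1
    linear_combination h1 - h2
  · intro g hg k i
    rcases hent k i with h | ⟨j, l, h⟩
    · show lsub (A.ρ g) (B k i) = B k i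
      rw [h, map_zero]
    · show lsub (A.ρ g) (B k i) = B k i
      rw [h, hχ2 g _ _ _ _ (hs j) (hs l), hχ1 g hg, C_1, one_mul]

end Pool.Agent.T4h19
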