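import Pool.Agent.W467.FO.F

/-!
# Project RG: rank two bundles with a finite group generated by reflections

`Act E Γ`: the finite group `Γ` acts linearly on `ℂ^(n+1)` (through `ρ`) and on the bundle `E`.
For every `S_x : Prop` below a helper proves `theorem T_x : S_x` in its own file
`Pool/Agent/T4h19/<x>.lean` (which imports this file only).
-/

set_option autoImplicit false
set_option maxHeartbeats 400000

open MvPolynomial H960VB H938TB Pool.Agent.W615 Pool.Agent.W467.FO

namespace Pool.Agent.T4h19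

/-- the endomorphisms of `ℂ^(n+1)` -/
abbrev LM (n : ℕ) : Type := (Fin (n + 1) → ℂ) →ₗ[ℂ] (Fin (n + 1) → ℂ)

/-- An action of the group `Γ` on `P^n` (through linear maps `ρ g`) and on the bundle `E`: for each
`g` a lift `O g` of `ρ g`, compatible with products (on sections; `lsub (ρ g) p = p ∘ ρ g`). -/
structure Act {n : ℕ} (E : Bundle2 n) (Γ : Type) [Group Γ] where
  ρ : Γ → LM n
  ρ_one : ρ 1 = LinearMap.id
  ρ_mul : ∀ g h, ρ (g * h) = ρ g ∘ₗ ρ h
  O : ∀ g, GOp E (ρ g)
  one : ∀ (d : ℤ) s, Sec E d s → (O 1).D s = s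
  mul : ∀ g h (d : ℤ) s, Sec E d s → (O (g * h)).D s = (O h).D ((O g).D s)

variable {n : ℕ} {E : Bundle2 n} {Γ : Type} [Group Γ]

/-- `g` acts as a reflection (or trivially) on `ℂ^(n+1)`. -/
def Act.Refl (A : Act E Γ) (g : Γ) : Prop :=
  n ≤ Module.finrank ℂ (LinearMap.ker (A.ρ g - LinearMap.id))

/-- the stabilisers of nonzero vectors are generated by reflections (Steinberg's property). -/
def Act.St (A : Act E Γ) : Prop := ∀ x : Fin (n + 1) → ℂ, x ≠ 0 → ∀ g, A.ρ g x = x →
  g ∈ Subgroup.closure {r | A.Refl r ∧ A.ρ r x = x}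

/-- normalisation: each reflection acts trivially on the fibre over one of its fixed vectors. -/
def Act.Nm (A : Act E Γ) : Prop := ∀ r, A.Refl r → ∃ y : Fin (n + 1) → ℂ, y ≠ 0 ∧ A.ρ r y = y ∧
  ∀ (d : ℤ) s, Sec E d s → evv ((A.O r).D s) y = evv s y

/-- `s` is an invariant section of `E(d)`. -/
def Act.Inv (A : Act E Γ) (d : ℤ) (s : Vec E.a n) : Prop := Sec E d s ∧ ∀ g, (A.O g).D s = s

/-- stabilisers of nonzero vectors act trivially on the fibres. -/
def Act.Tr (A : Act E Γ) : Prop := ∀ x : Fin (n + 1) → ℂ, x ≠ 0 → ∀ g, A.ρ g x = x →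
  ∀ (d : ℤ) s, Sec E d s → evv ((A.O g).D s) x = evv s x

/-- **Task scal** (a reflection acts on the fibres over its hyperplane by a scalar; 90 lines).
Proof. Let `T = A.ρ g`, `O = A.O g`. `T` is injective (`A.ρ_mul g⁻¹ g`, `A.ρ_one`). Take
`W` from `exists_wedge` (n ≥ 1) and `κ, hκ0, hκ` from `GOp.det O W`. `exists_S (1 : ℂ)` (file
`W467/FO/F.lean`; the kernel there is of `T - 1 • id`, finrank ≥ n ≥ 3) gives `S`, `2 ≤ m ≤ n`,
injective, `T ∘ₗ S = 1 • S`, and every `P` with `T P = 1 • P` is `S y`. `E.pull S` does not split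
by `Bundle2.splits_of_pull (n - m) m n` (see the use in `main` in `W467/FO/F.lean`).
`GOp.typeV O W hκ0 hκ _ S hSi one_ne_zero hTS hE'` gives `u` with: if `s : S0 E d` is a generalised
eigenvector (`O.GE d α s`) of `O.lin d` and `rs S s ≠ 0` then `α = u * 1 ^ d = u`. So, for an
eigenvector `s` of `f := O.lin d` with eigenvalue `α` and a vector `x` with `T x = x`: either
`evv s x = 0` or `α = u`; in both cases `evv (O.D s) x = α • evv s x = u • evv s x`.
Every `s : S0 E d` is a sum of eigenvectors: `f ^ N = 1` for `N = Nat.card Γ` since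
`(A.O g).D^[k] s = (A.O (g ^ k)).D s` by `A.mul` and induction, and `g ^ N = 1` (`A.one`). With
`ζ = exp (2πi/N)` put `s_j = (1/N) ∑_{k<N} ζ^(-jk) f^k s` (`j < N`): `f s_j = ζ^j s_j` and
`∑_j s_j = s`; or use the minimal polynomial / `Module.End.IsFinitelySemisimple` /
`Module.End.iSup_maxGenEigenspace_eq_top` (the generalised eigenvectors span, `exists_ge_family` in
`W615/X2.lean`; for a generalised eigenvector `v` of eigenvalue `α`, `f^N = 1` implies
`f v = α v`). Both sides of the claim are additive in `s` (`O.add`). For `x = 0` : if `x = 0` the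
claim follows in the same way (no case distinction is needed). -/
def S_scal : Prop := ∀ (n : ℕ) (E : Bundle2 n) (Γ : Type) [Group Γ] [Finite Γ] (A : Act E Γ),
  3 ≤ n → ¬ E.Splits → ∀ g, A.Refl g → ∃ u : ℂ, ∀ x, A.ρ g x = x →
    ∀ (d : ℤ) s, Sec E d s → evv ((A.O g).D s) x = u • evv s x

/-- **Task triv** (the stabilisers act trivially; 70 lines; uses `S_scal` as a hypothesis).
Proof. First let `r` be a reflection with `ρ r x = x`. Take `u` from `S_scal` and `y` from `Nm`.
There is a section `s` of some `E(d)` with `evv s y ≠ 0` (`exists_sec_ne W y hy` gives `s, s'` with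
`eval y (W.wd s s') ≠ 0`; by `W.ind` the values are independent). So `u • evv s y = evv s y`, `u = 1`,
and `evv ((O r).D s) x = evv s x` for all sections. For a general `g` in the closure use
`Subgroup.closure_induction` for the property `A.ρ g x = x ∧ ∀ d s, Sec E d s → evv ((A.O g).D s) x =
evv s x`: `one` by `A.one`; `mul` by `A.mul`, `A.ρ_mul` and `(A.O g).sec`; `inv`: from
`s = (O (g⁻¹ * g)).D s = (O g).D ((O g⁻¹).D s)` with `t = (O g⁻¹).D s`. -/
def S_triv : Prop := S_scal → ∀ (n : ℕ) (E : Bundle2 n) (Γ : Type) [Group Γ] [Finite Γ]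
  (A : Act E Γ), 3 ≤ n → ¬ E.Splits → A.St → A.Nm → A.Tr

/-- **Task gen** (invariant sections generate; 130 lines).
Proof. Take `G, G'` sections of `E(a), E(b)` with `eval x (W.wd G G') ≠ 0` (`exists_sec_ne`).
Let `p` be a polynomial with `p(x) = 1` and `p(y) = 0` for all the vectors `y = ρ g x ≠ x` (finite
set; product of suitable affine linear functions `(X i - C (y i)) / (x i - y i)`), and let
`p_e = homogeneousComponent e p`, `e ≤ p.totalDegree`. Put `t_e = ∑_g (O g).D (p_e • G)` (a finite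
sum over `Γ`, `Fintype.ofFinite`). It is a section of `E(e + a)`, and it is invariant:
`(O h).D t_e = ∑_g (O h).D ((O g).D (p_e • G)) = ∑_g (O (g * h)).D (p_e • G) = t_e`
(additivity of `(O h).D` on finite sums of sections: induction with `add`).
By `mul`, `(O g).D (p_e • G) = lsub (ρ g) p_e • (O g).D G`, so
`∑_e evv t_e x = ∑_g (∑_e eval (ρ g x) p_e) • evv ((O g).D G) x = ∑_g eval (ρ g x) p • evv ((O g).D G) x
= ∑_{g : ρ g x = x} evv ((O g).D G) x = N • evv G x` by `Tr`, where `N ≥ 1` is the number of `g` with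
`ρ g x = x`. Similarly `t'_e` with `G'`. If `eval x (W.wd t_e t'_e') = 0` for all `e, e'`, then by
`W.eq` all the minors `t_e(x)_i t'_e'(x)_j - t_e(x)_j t'_e'(x)_i` vanish; summing over `e, e'`,
`N² (G(x)_i G'(x)_j - G(x)_j G'(x)_i) = 0`, so `eval x (W.wd G G') * eval x (W.P i j) = 0` for all
`i, j`, which contradicts `W.P_ne`. -/
def S_gen : Prop := ∀ (n : ℕ) (E : Bundle2 n) (Γ : Type) [Group Γ] [Finite Γ] (A : Act E Γ)
  (W : Wedge (triv E)), A.Tr → ∀ x : Fin (n + 1) → ℂ, x ≠ 0 →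
    ∃ (d e : ℤ) (s t : Vec E.a n), A.Inv d s ∧ A.Inv e t ∧ eval x (W.wd s t) ≠ 0

/-- **Task fam** (finitely many sections generate; 60 lines).
Proof. Let `I` be the ideal generated by the set `Z` of all `W.wd s t` with `Q d s`, `Q e t`.
`MvPolynomial (Fin (n+1)) ℂ` is Noetherian, so `I = Ideal.span F` for a finite `F ⊆ Z`
(`Submodule.fg_span_iff_fg_span_finset_subset` or `(Submodule.fg_def/ exists_finset...)`). Enumerate
the sections `s, t` appearing for the elements of `F` (for instance index set `F × Bool`, `Fintype`,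
`Fintype.equivFin`). If all `W.wd (s i) (s j)` vanish at `x` then so do all elements of `I`. -/
def S_fam : Prop := ∀ (n : ℕ) (E : Bundle2 n) (W : Wedge (triv E)) (Q : ℤ → Vec E.a n → Prop),
  (∀ x : Fin (n + 1) → ℂ, x ≠ 0 → ∃ (d e : ℤ) (s t : Vec E.a n), Q d s ∧ Q e t ∧
    eval x (W.wd s t) ≠ 0) →
  ∃ (M : ℕ) (δ : Fin M → ℤ) (s : Fin M → Vec E.a n), (∀ i, Q (δ i) (s i)) ∧
    ∀ x : Fin (n + 1) → ℂ, x ≠ 0 → ∃ i j, eval x (W.wd (s i) (s j)) ≠ 0

/-- **Task chi** (the character; 60 lines).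
Proof. For `g` the map `A.ρ g` is injective (`ρ_mul g⁻¹ g`, `ρ_one`), so `GOp.det (A.O g) W` gives
`κ_g ≠ 0` with `W.wd (D s) (D t) = C κ_g * lsub (ρ g) (W.wd s t)` for sections. For invariant
sections `D s = s`, `D t = t`, so `lsub (ρ g) (W.wd s t) = C (κ_g)⁻¹ * W.wd s t`; `χ g = (κ_g)⁻¹`.
If `g` is a reflection, its fixed space has dimension `≥ n ≥ 1`, so it contains `x ≠ 0`; take
invariant `s, t` with `eval x (W.wd s t) ≠ 0` from the hypothesis and evaluate at `x`
(`eval_lsub`, `ρ g x = x`): `χ g = 1`. -/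
def S_chi : Prop := ∀ (n : ℕ) (E : Bundle2 n) (Γ : Type) [Group Γ] (A : Act E Γ)
  (W : Wedge (triv E)), 1 ≤ n → (∀ x : Fin (n + 1) → ℂ, x ≠ 0 →
    ∃ (d e : ℤ) (s t : Vec E.a n), A.Inv d s ∧ A.Inv e t ∧ eval x (W.wd s t) ≠ 0) →
  ∃ χ : Γ → ℂ, (∀ g, A.Refl g → χ g = 1) ∧ ∀ g (d e : ℤ) (s t : Vec E.a n), A.Inv d s →
    A.Inv e t → lsub (A.ρ g) (W.wd s t) = C (χ g) * W.wd s t

/-- **Task gram** (the bundle of a Gram matrix; 130 lines).
Proof. Rows of `B` are indexed by the triples `(i, j, k)` (`c = M * (M * M)`, `finProdFinEquiv`):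
the row `(i, j, k)` is the linear form `w_jk p_i - w_ik p_j + w_ij p_k`, `w_ij = W.wd (s i) (s j)`, for
PAIRWISE DISTINCT `i, j, k` (put the row equal to zero otherwise; `w` is alternating, so for
coinciding indices the relation holds automatically: `W.anti`, `w_ii = 0` by `wd_self`). Then each
entry is `0`, some `w_jl` or `-w_jl = w_lj` (`W.anti`). The degree of the row `(i, j, k)` is
`γ = δ i + δ j + δ k + 2 κ`, `wd_homZ` gives `HomZ (w_jk) (δ j + δ k + κ)`.
Rank: let `x ≠ 0`, `w_ij(x) ≠ 0` for some `i, j` (`i ≠ j`). The vectors `r_i = (w_il(x))_l`,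
`r_j = (w_jl(x))_l` are in the kernel by the relation `W.four` evaluated at `x`; they are
independent (their coordinates at `i, j` are `(0, w_ij)`, `(-w_ij, 0)`), and each `p` in the kernel is a
combination of them: the relation for `(i, j, k)` gives `w_ij p_k = w_ik p_j - w_jk p_i`. So the
kernel has dimension two (a basis, or `finrank_span_eq_card`). The last statement is the
definition of `B`. -/
def S_gram : Prop := ∀ (n : ℕ) (E : Bundle2 n) (W : Wedge (triv E)) (M : ℕ) (δ : Fin M → ℤ)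
  (s : Fin M → Vec E.a n), (∀ i, Sec E (δ i) (s i)) →
  (∀ x : Fin (n + 1) → ℂ, x ≠ 0 → ∃ i j, eval x (W.wd (s i) (s j)) ≠ 0) →
  ∃ (c : ℕ) (γ : Fin c → ℤ) (B : Matrix (Fin c) (Fin M) (MvPolynomial (Fin (n + 1)) ℂ)),
    (∀ k i, HomZ (B k i) (γ k - (δ i + W.κ.1))) ∧
    (∀ x : Fin (n + 1) → ℂ, x ≠ 0 →
      Module.finrank ℂ (LinearMap.ker (Matrix.mulVecLin (evm B x))) = 2) ∧
    (∀ k i, B k i = 0 ∨ ∃ j l, B k i = W.wd (s j) (s l)) ∧
    ∀ p : Fin M → MvPolynomial (Fin (n + 1)) ℂ, (∀ k, ∑ i, B k i * p i = 0) ↔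
      ∀ i j k, W.wd (s j) (s k) * p i - W.wd (s i) (s k) * p j + W.wd (s i) (s j) * p k = 0

/-- **Task lift** (sections from their wedge products; 130 lines).
Proof. Write `w_ij = W.wd (s i) (s j)`. There are `i₀, j₀` with `w := w_{i₀ j₀} ≠ 0` (take `x = 1`).
For all `i, j` put `A_ij = p_j • s_i - p_i • s_j` (a vector of polynomials in `Ker E`). We have
`w_kl A_ij = w_ij A_kl` for all `i, j, k, l`: both sides are in `Ker E`, and their wedge products
with every `s_q` agree: `W.wd (A_ij) (s q) = p_j w_iq - p_i w_jq = w_ij p_q` up to sign by the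
relation for `(i, j, q)` (the sign is the same for all `i, j`), so the difference `Z` has
`W.wd Z (s q) = 0` for all `q`; then `Z = 0` since
`W.three Z (s a) (s b)` gives `w_ab * Z i = 0`. Now each coordinate: `w ∣ (A_{i₀ j₀})_i` by
`dvd_of_primes` (if `π ∣ w` is a prime, `no_isolated_prime` gives `v ≠ 0` with `π(v) = 0`, and
`w_kl(v) ≠ 0` for some `k, l`, so `¬ π ∣ w_kl`, and `w * (A_kl)_i = w_kl * (A_{i₀ j₀})_i`).
So `A_{i₀ j₀} = w • G` (up to the sign above), `Ker E G` (`ker_of_mul`), `W.wd G (s q) = p_q` after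
cancelling `w`, and `G` is homogeneous of degree `E.β i + d`: `sec_of_mul` in
`TH189/Sg4.lean` (line 19; you may import `Pool.Agent.TH189.Sg4`), since `w • G` is a section of
`E(d + deg)`. -/
def S_lift : Prop := ∀ (n : ℕ) (E : Bundle2 n) (W : Wedge (triv E)) (M : ℕ) (δ : Fin M → ℤ)
  (s : Fin M → Vec E.a n), 1 ≤ n → (∀ i, Sec E (δ i) (s i)) →
  (∀ x : Fin (n + 1) → ℂ, x ≠ 0 → ∃ i j, eval x (W.wd (s i) (s j)) ≠ 0) →
  ∀ (d : ℤ) (p : Fin M → MvPolynomial (Fin (n + 1)) ℂ), (∀ i, HomZ (p i) (d + (δ i + W.κ.1))) →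
    (∀ i j k, W.wd (s j) (s k) * p i - W.wd (s i) (s k) * p j + W.wd (s i) (s j) * p k = 0) →
    ∃ G, Sec E d G ∧ ∀ i, W.wd G (s i) = p i

end Pool.Agent.T4h19
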